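import Pool.Agent.Q284.ISO.Six
import Pool.Agent.Y667.PA.Pair

/-!
# The models of the curves of the good pairs
-/

set_option autoImplicit false

namespace Pool.Agent.Q284.ISO

open Finset Pool.Agent.W262.RK Pool.Agent.W307.RT Pool.Agent.W307.RS Pool.Agent.W307.SE
  Pool.Agent.W307.FK Pool.Agent.Y667.RP Pool.Agent.Y667.RZ Pool.Agent.Y667.MT
open Pool.Agent.Y285.RP Pool.Agent.Y285.RZ Pool.Agent.Y738.MT
open Pool.Agent.Y667.PA (TPR pair_of transR)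

/-- the two exponents of the model `y² = x³ + α x² + β x` and their parity -/
def Par2 (α β : ℤ) (c : ℕ) : Prop := ∃ f1 f2 : ℕ, (F1 α β).ncard = 2 ^ f1 ∧
  (F1 (-2 * α) (α ^ 2 - 4 * β)).ncard = 2 ^ f2 ∧ Even (f1 + f2 + c)

/-- the three equations -/
lemma models {A B k α β : ℤ} (hk : A + B = 3 * k)
    (h : ∃ C : WeierstrassCurve.VariableChange ℚ,
      C • (⟨0, 0, 0, ((cc A B k).1 : ℚ), ((cc A B k).2 : ℚ)⟩ : WeierstrassCurve ℚ) =
        ⟨0, (α : ℚ), 0, (β : ℚ), 0⟩) :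
    ∃ m : ℚ, m ≠ 0 ∧ (
      ((α : ℚ) = m ^ 2 * (-(A + B) : ℤ) ∧ (β : ℚ) = m ^ 4 * (A * B : ℤ)) ∨
      ((α : ℚ) = m ^ 2 * (2 * A - B : ℤ) ∧ (β : ℚ) = m ^ 4 * (A * (A - B) : ℤ)) ∨
      ((α : ℚ) = m ^ 2 * (2 * B - A : ℤ) ∧ (β : ℚ) = m ^ 4 * (B * (B - A) : ℤ))) := by
  obtain ⟨C, hC⟩ := h
  have h1 := congrArg WeierstrassCurve.a₁ hC
  have h2 := congrArg WeierstrassCurve.a₂ hC
  have h3 := congrArg WeierstrassCurve.a₃ hC
  have h4 := congrArg WeierstrassCurve.a₄ hC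
  have h6 := congrArg WeierstrassCurve.a₆ hC
  simp only [WeierstrassCurve.variableChange_a₁, WeierstrassCurve.variableChange_a₂,
    WeierstrassCurve.variableChange_a₃, WeierstrassCurve.variableChange_a₄,
    WeierstrassCurve.variableChange_a₆] at h1 h2 h3 h4 h6
  obtain ⟨m, hm⟩ : ∃ m : ℚ, m = ((C.u⁻¹ : ℚˣ) : ℚ) := ⟨_, rfl⟩
  have hm0 : m ≠ 0 := by rw [hm]; exact Units.ne_zero _
  rw [← hm] at h1 h2 h3 h4 h6
  have hs : C.s = 0 := by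
    rcases mul_eq_zero.1 h1 with h | h
    · exact absurd h hm0
    · linarith
  have ht : C.t = 0 := by
    rcases mul_eq_zero.1 h3 with h | h
    · exact absurd h (pow_ne_zero 3 hm0)
    · linarith
  rw [hs] at h2 h4
  rw [ht] at h4 h6
  obtain ⟨r, hr⟩ : ∃ r : ℚ, r = C.r := ⟨_, rfl⟩
  rw [← hr] at h2 h4 h6
  unfold cc at h4 h6
  simp only at h4 h6
  push_cast at h4 h6
  have hkQ : (A : ℚ) + B = 3 * k := by exact_mod_cast hk
  have hroot : (r + k) * (r + k - A) * (r + k - B) = 0 := by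
    rcases mul_eq_zero.1 h6 with h | h
    · exact absurd h (pow_ne_zero 6 hm0)
    · linear_combination h - (r ^ 2 + 2 * r * k + k ^ 2) * hkQ + (k ^ 2 : ℚ) * hkQ
  refine ⟨m, hm0, ?_⟩
  rcases mul_eq_zero.1 hroot with h | h
  · rcases mul_eq_zero.1 h with h | h
    · left
      have hr2 : r = -k := by linear_combination h
      rw [hr2] at h2 h4
      constructor
      · rw [← h2]; push_cast; linear_combination (m ^ 2) * hkQ
      · rw [← h4]; push_cast; ring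
    · right; left
      have hr2 : r = A - k := by linear_combination h
      rw [hr2] at h2 h4
      constructor
      · rw [← h2]; push_cast; linear_combination (m ^ 2) * hkQ
      · rw [← h4]; push_cast; linear_combination (2 * A * m ^ 4) * hkQ
  · right; right
    have hr2 : r = B - k := by linear_combination h
    rw [hr2] at h2 h4
    constructor
    · rw [← h2]; push_cast; linear_combination (m ^ 2) * hkQ
    · rw [← h4]; push_cast; linear_combination (2 * B * m ^ 4) * hkQ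

/-- the sets of a model -/
lemma F1_model {α β a b : ℤ} {m : ℚ} (hm : m ≠ 0) (hb : b ≠ 0) (hd : a ^ 2 - 4 * b ≠ 0)
    (h1 : (α : ℚ) = m ^ 2 * (a : ℚ)) (h2 : (β : ℚ) = m ^ 4 * (b : ℚ)) :
    F1 α β = Gz a b ∧ F1 (-2 * α) (α ^ 2 - 4 * β) = Gz (-2 * a) (a ^ 2 - 4 * b) := by
  have hbQ : (b : ℚ) ≠ 0 := by exact_mod_cast hb
  have hdQ : (a : ℚ) ^ 2 - 4 * b ≠ 0 := by exact_mod_cast hd
  have hβ : β ≠ 0 := by
    rintro rfl
    rw [Int.cast_zero] at h2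
    exact mul_ne_zero (pow_ne_zero 4 hm) hbQ h2.symm
  have e : (α : ℚ) ^ 2 - 4 * β = m ^ 4 * ((a : ℚ) ^ 2 - 4 * b) := by
    rw [h1, h2]; ring
  have hδ : α ^ 2 - 4 * β ≠ 0 := by
    intro h
    have h' : (α : ℚ) ^ 2 - 4 * β = 0 := by exact_mod_cast h
    rw [e] at h'
    exact mul_ne_zero (pow_ne_zero 4 hm) hdQ h'
  constructor
  · rw [F1_eq hβ hδ, h1, h2, Gs_scale hm, Gs_cast]
  · have hδ2 : (-2 * α) ^ 2 - 4 * (α ^ 2 - 4 * β) ≠ 0 := by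
      intro h
      apply hβ
      have : 16 * β = 0 := by linear_combination h
      omega
    rw [F1_eq hδ hδ2]
    have e1 : ((-2 * α : ℤ) : ℚ) = m ^ 2 * ((-2 * a : ℤ) : ℚ) := by
      push_cast; rw [h1]; ring
    have e2 : ((α ^ 2 - 4 * β : ℤ) : ℚ) = m ^ 4 * ((a ^ 2 - 4 * b : ℤ) : ℚ) := by
      push_cast; exact e
    rw [e1, e2, Gs_scale hm, Gs_cast]

theorem LD.par {M : ℕ} {L : ℕ → Bool → Bool → Bool → Bool → Prop} {A B k : ℤ} (h : LD M L A B)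
    (hk : A + B = 3 * k) {c : ℕ}
    (hp : ∀ i : Fin 3, ∃ f1 f2 : ℕ, (GB M (fun p => PP i (L p))).ncard = 2 ^ f1 ∧
      (GA M (fun p => QQc i (L p))).ncard = 2 ^ f2 ∧ Even (f1 + f2 + c)) :
    ∀ α β : ℤ, (∃ C : WeierstrassCurve.VariableChange ℚ,
      C • (⟨0, 0, 0, ((cc A B k).1 : ℚ), ((cc A B k).2 : ℚ)⟩ : WeierstrassCurve ℚ) =
        ⟨0, (α : ℚ), 0, (β : ℚ), 0⟩) → Par2 α β c := by
  intro α β hC
  have hA := h.A0
  have hB := h.B0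
  have hAB := sub_ne_zero.2 h.AB
  have hBA := sub_ne_zero.2 h.AB.symm
  obtain ⟨m, hm, ⟨h1, h2⟩ | ⟨h1, h2⟩ | ⟨h1, h2⟩⟩ := models hk hC
  · obtain ⟨e1, e2⟩ := F1_model hm (mul_ne_zero hA hB) (by
      have : (-(A + B)) ^ 2 - 4 * (A * B) = (A - B) ^ 2 := by ring
      rw [this]; exact pow_ne_zero 2 hAB) h1 h2
    have g1 : (-(A + B)) ^ 2 - 4 * (A * B) = (A - B) ^ 2 := by ring
    have g2 : -2 * (-(A + B)) = 2 * (A + B) := by ring
    rw [g1, g2, h.d0] at e2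
    rw [h.s0] at e1
    obtain ⟨f1, f2, k1, k2, k3⟩ := hp 0
    exact ⟨f1, f2, by rw [e1]; exact k1, by rw [e2]; exact k2, k3⟩
  · have g1 : (2 * A - B) ^ 2 - 4 * (A * (A - B)) = B ^ 2 := by ring
    obtain ⟨e1, e2⟩ := F1_model hm (mul_ne_zero hA hAB) (by
      rw [g1]; exact pow_ne_zero 2 hB) h1 h2
    rw [g1, h.d1] at e2
    rw [h.s1] at e1
    obtain ⟨f1, f2, k1, k2, k3⟩ := hp 1
    exact ⟨f2, f1, by rw [e1]; exact k2, by rw [e2]; exact k1, by rwa [add_comm f2 f1]⟩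
  · have g1 : (2 * B - A) ^ 2 - 4 * (B * (B - A)) = A ^ 2 := by ring
    obtain ⟨e1, e2⟩ := F1_model hm (mul_ne_zero hB hBA) (by
      rw [g1]; exact pow_ne_zero 2 hA) h1 h2
    rw [g1, h.d2] at e2
    rw [h.s2] at e1
    obtain ⟨f1, f2, k1, k2, k3⟩ := hp 2
    exact ⟨f2, f1, by rw [e1]; exact k2, by rw [e2]; exact k1, by rwa [add_comm f2 f1]⟩

lemma Par2.congr {α β : ℤ} {c c' : ℕ} (h : Par2 α β c) (hc : Even (c + c')) : Par2 α β c' := by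
  obtain ⟨f1, f2, h1, h2, x, hx⟩ := h
  obtain ⟨y, hy⟩ := hc
  exact ⟨f1, f2, h1, h2, x + y - c, by omega⟩

/-- the good pairs with the hypothesis on the units -/
lemma pair_hp {r X : ℕ} {t : ℕ × ℕ} (ht : t ∈ Icc 1 X ×ˢ Icc 1 X) (h : GoodR r X t) :
    ∃ s : Fin 3 → ℕ, HP s ∧ (s 0 : ℤ) = t.1 ∧ (s 1 : ℤ) = t.2 ∧
      (s 0 : ℤ) + s 1 = 3 * (((t.1 + t.2) / 3 : ℕ) : ℤ) ∧
      ((TPR r (cc (t.1 : ℤ) (t.2 : ℤ) (((t.1 + t.2) / 3 : ℕ) : ℤ)) ∧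
          Even (((∏ j, s j).primeFactors \ sgF (s 0) (s 1) (∏ j, s j)).card + r)) ∨
        (TPR r (cc (17 * (t.1 : ℤ)) (17 * (t.2 : ℤ)) (17 * (((t.1 + t.2) / 3 : ℕ) : ℤ))) ∧
          Even (((∏ j, s j).primeFactors \ sgF (s 0) (s 1) (∏ j, s j)).card + 1 + r))) := by
  obtain ⟨s, hs, e0, e1, hk, hT⟩ := pair_of ht h
  refine ⟨s, ⟨hs.sq, hs.odd, hs.big, hs.rel, hs.m0, hs.m1, hs.n0, hs.n1, ?_⟩, e0, e1, hk, hT⟩
  obtain ⟨-, -, -, -, -, -, -, s', e0', e1', -, -, -, heq, -, -, -, -, hσ, -⟩ := h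
  have hss : s' = s := by
    have r0 := hs.rel
    funext j
    rcases Pool.Agent.Y655.RZ.fin3 j with rfl | rfl | rfl
    · omega
    · omega
    · omega
  rw [hss] at hσ
  exact hσ

/-- the property of the curves -/
def TI (r : ℕ) (k : ℤ × ℤ) : Prop := TPR r k ∧
  ∀ α β : ℤ, (∃ C : WeierstrassCurve.VariableChange ℚ,
      C • (⟨0, 0, 0, (k.1 : ℚ), (k.2 : ℚ)⟩ : WeierstrassCurve ℚ) =
        ⟨0, (α : ℚ), 0, (β : ℚ), 0⟩) → Par2 α β r

open Classical in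
theorem curvesTI (r : ℕ) : ∃ c : ℝ, 0 < c ∧ ∃ H0 : ℕ, ∀ H : ℕ, H0 ≤ H →
    c * ((Cv 2 H).card : ℝ) ≤ (((Cv 2 H).filter (TI r)).card : ℝ) := by
  refine transR r (TI r) fun X t ht h => ?_
  obtain ⟨s, hs, e0, e1, hkk, ⟨h1, h2⟩ | ⟨h1, h2⟩⟩ := pair_hp ht h
  · left
    refine ⟨h1, fun α β hC => ?_⟩
    rw [← e0, ← e1] at hC
    exact (hs.ld1.par hkk hs.six1 α β hC).congr h2
  · right
    refine ⟨h1, fun α β hC => ?_⟩
    rw [← e0, ← e1] at hC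
    exact (hs.ld17.par (by linarith) hs.six17 α β hC).congr h2

end Pool.Agent.Q284.ISO
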