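import Pool.Agent.Q284.ISO.Quart
import Pool.Agent.Y667.RP.V0

/-!
# Square classes of p-adic numbers; the sets of the quartics are sets of classes
-/

set_option autoImplicit false

namespace Pool.Agent.Q284.ISO

section

variable {p : ℕ} [hp : Fact p.Prime]

/-- every class contains a squarefree integer -/
lemma ex_rep {z : ℚ_[p]} (hz : z ≠ 0) : ∃ e : ℤ, Squarefree e ∧ IsSquare (z * e) := by
  have hp0 : (p : ℚ_[p]) ≠ 0 := by exact_mod_cast hp.out.ne_zero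
  have h40 : (4 * p : ℚ_[p]) ≠ 0 := mul_ne_zero (by norm_num) hp0
  have h4 : 0 < ‖(4 * p : ℚ_[p])‖ * ‖z‖ := mul_pos (norm_pos_iff.2 h40) (norm_pos_iff.2 hz)
  obtain ⟨r, hr⟩ := Padic.rat_dense p z h4
  have h1 : ‖((r : ℚ_[p]) - z) / z‖ ≤ ‖(4 * p : ℚ_[p])‖ := by
    rw [norm_div, div_le_iff₀ (norm_pos_iff.2 hz), norm_sub_rev]
    exact hr.le
  obtain ⟨⟨w, hw⟩, h2'⟩ := sq_near h1
  have e1 : (1 : ℚ_[p]) + ((r : ℚ_[p]) - z) / z = r / z := by field_simp; ring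
  rw [e1] at hw h2'
  have hr0 : (r : ℚ_[p]) ≠ 0 := fun h => h2' (by rw [h, zero_div])
  have hr0' : r ≠ 0 := by
    rintro rfl
    exact hr0 Rat.cast_zero
  have hzr : z * r = (z * w) * (z * w) := by
    have : (r : ℚ_[p]) = z * (w * w) := by rw [← hw]; field_simp
    rw [this]; ring
  obtain ⟨m, hm⟩ : ∃ m : ℤ, m = r.num * r.den := ⟨_, rfl⟩
  have hm0 : m ≠ 0 := by
    rw [hm]
    exact mul_ne_zero (Rat.num_ne_zero.2 hr0') (by exact_mod_cast r.den_ne_zero)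
  have hmr : (m : ℚ_[p]) = r * (r.den : ℚ_[p]) ^ 2 := by
    have h3 : (m : ℚ) = r * (r.den : ℚ) ^ 2 := by
      rw [hm]
      push_cast
      have := Rat.mul_den_eq_num r
      rw [pow_two, ← mul_assoc, this]
    have h4 := congrArg (fun t : ℚ => (t : ℚ_[p])) h3
    push_cast at h4
    exact h4
  obtain ⟨a, b, hab, ha⟩ := Nat.sq_mul_squarefree m.natAbs
  have hb0 : b ≠ 0 := by
    rintro rfl
    rw [zero_pow two_ne_zero, zero_mul] at hab
    exact hm0 (Int.natAbs_eq_zero.1 hab.symm)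
  have key : ∃ e : ℤ, Squarefree e ∧ m = (b : ℤ) ^ 2 * e := by
    rcases Int.natAbs_eq m with h | h
    · refine ⟨a, Int.squarefree_natCast.2 ha, ?_⟩
      rw [h, ← hab]; push_cast; ring
    · refine ⟨-a, by rw [← Int.squarefree_natAbs, Int.natAbs_neg, Int.natAbs_natCast]; exact ha, ?_⟩
      rw [h, ← hab]; push_cast; ring
  obtain ⟨e, he, hme⟩ := key
  refine ⟨e, he, ?_⟩
  have hbp : (b : ℚ_[p]) ≠ 0 := by exact_mod_cast hb0
  have h5 : (m : ℚ_[p]) = (b : ℚ_[p]) ^ 2 * e := by rw [hme]; push_cast; ring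
  apply isSq_div (K := ℚ_[p]) hbp
  have h6 : z * (e : ℚ_[p]) * (b : ℚ_[p]) ^ 2 = (z * w * r.den) * (z * w * r.den) := by
    have h7 : z * (e : ℚ_[p]) * (b : ℚ_[p]) ^ 2 = z * m := by rw [h5]; ring
    rw [h7, hmr]
    linear_combination (r.den : ℚ_[p]) ^ 2 * hzr
  rw [h6]
  exact ⟨_, rfl⟩

lemma val_zero_of_norm {z : ℚ_[p]} (hz : ‖z‖ = 1) : z.valuation = 0 := by
  have hz0 : z ≠ 0 := by
    rintro rfl
    rw [norm_zero] at hz
    exact zero_ne_one hz
  have h1 := Padic.norm_eq_zpow_neg_valuation hz0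
  rw [hz] at h1
  have hp1 : (1 : ℝ) < p := by exact_mod_cast hp.out.one_lt
  have h2 := zpow_right_injective₀ (by linarith) hp1.ne' ((zpow_zero (p : ℝ)).trans h1)
  omega

lemma val_int_unit {b : ℤ} (hb : ¬ (p : ℤ) ∣ b) : ‖(b : ℚ_[p])‖ = 1 := by
  have h1 : ¬ ‖(b : ℚ_[p])‖ < 1 := by
    rw [Padic.norm_intCast_lt_one_iff]
    exact hb
  exact le_antisymm (Padic.norm_int_le_one b) (not_lt.1 h1)

/-- the classes are unramified at the primes not dividing `b` -/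
theorem PtC.dvd {a b d : ℤ} (hd : Squarefree d) (h : PtC ℚ_[p] a b d) (hpd : (p : ℤ) ∣ d) :
    (p : ℤ) ∣ b := by
  by_contra hb
  obtain ⟨x, y, hy, hxy, z, hz⟩ := h
  have hx : x ≠ 0 := by
    rintro rfl
    apply hy
    rw [zero_mul] at hxy
    exact pow_eq_zero_iff (two_ne_zero) |>.1 hxy
  have hd0 : (d : ℚ_[p]) ≠ 0 := by exact_mod_cast hd.ne_zero
  have hp0 : (p : ℚ_[p]) ≠ 0 := by exact_mod_cast hp.out.ne_zero
  have hz0 : z ≠ 0 := by
    rintro rfl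
    rw [mul_zero] at hz
    exact mul_ne_zero hx hd0 hz
  have hq0 : x ^ 2 + a * x + b ≠ 0 := by
    intro h
    apply hy
    rw [h, mul_zero] at hxy
    exact pow_eq_zero_iff (two_ne_zero) |>.1 hxy
  have v1 : 2 * y.valuation = x.valuation + (x ^ 2 + a * x + b).valuation := by
    rw [← Padic.valuation_mul hx hq0, ← hxy, Padic.valuation_pow]
    norm_num
  have v2 : 2 * z.valuation = x.valuation + (d : ℚ_[p]).valuation := by
    rw [← Padic.valuation_mul hx hd0, hz, Padic.valuation_mul hz0 hz0]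
    ring
  have v3 : (d : ℚ_[p]).valuation = 1 := by
    obtain ⟨d', hd'⟩ := hpd
    have hnd : ¬ (p : ℤ) ∣ d' := by
      intro h
      have h1 : (p : ℤ) * p ∣ d := by rw [hd']; exact mul_dvd_mul_left _ h
      have h2 := hd _ h1
      exact (Nat.prime_iff_prime_int.1 hp.out).not_isUnit h2
    have hd'0 : (d' : ℚ_[p]) ≠ 0 := by
      intro h
      apply hd0
      rw [hd']
      push_cast
      rw [h, mul_zero]
    rw [hd']
    push_cast
    rw [Padic.valuation_mul hp0 hd'0, Padic.valuation_p, val_zero_of_norm (val_int_unit hnd)]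
    norm_num
  have hbn := val_int_unit (p := p) hb
  have han : ‖(a : ℚ_[p])‖ ≤ 1 := Padic.norm_int_le_one a
  have hxn := Padic.norm_eq_zpow_neg_valuation hx
  have hp1 : (1 : ℝ) < p := by exact_mod_cast hp.out.one_lt
  rcases lt_trichotomy x.valuation 0 with hv | hv | hv
  · -- x has a pole
    have hx1 : 1 < ‖x‖ := by
      rw [hxn]
      exact one_lt_zpow₀ hp1 (by omega)
    have h1 : ‖(a : ℚ_[p]) * x + b‖ ≤ ‖x‖ := by
      refine (Padic.nonarchimedean _ _).trans (max_le ?_ ?_)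
      · rw [norm_mul]
        calc ‖(a : ℚ_[p])‖ * ‖x‖ ≤ 1 * ‖x‖ := by gcongr
          _ = ‖x‖ := one_mul _
      · rw [hbn]; exact hx1.le
    have h2 : ‖x‖ < ‖x ^ 2‖ := by
      rw [norm_pow, pow_two]
      nlinarith
    have h3 : ‖x ^ 2 + (a * x + b)‖ = ‖x ^ 2‖ := by
      rw [Padic.add_eq_max_of_ne (by linarith [h1.trans_lt h2] : ‖x ^ 2‖ ≠ ‖(a : ℚ_[p]) * x + b‖)]
      exact max_eq_left (h1.trans h2.le)
    have h4 : (x ^ 2 + a * x + b).valuation = 2 * x.valuation := by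
      have e1 : x ^ 2 + a * x + b = x ^ 2 + (a * x + b) := by ring
      have h5 := Padic.norm_eq_zpow_neg_valuation hq0
      rw [e1] at h5 ⊢
      rw [h3, norm_pow, hxn, ← zpow_natCast, ← zpow_mul] at h5
      have h6 := zpow_right_injective₀ (by linarith) hp1.ne' h5
      push_cast at h6
      omega
    omega
  · omega
  · have hx1 : ‖x‖ < 1 := by
      rw [hxn]
      exact zpow_lt_one_of_neg₀ hp1 (by omega)
    have h1 : ‖x ^ 2 + (a : ℚ_[p]) * x‖ < 1 := by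
      have : x ^ 2 + (a : ℚ_[p]) * x = x * (x + a) := by ring
      rw [this, norm_mul]
      have h2 : ‖x + a‖ ≤ 1 := (Padic.nonarchimedean _ _).trans (max_le hx1.le han)
      calc ‖x‖ * ‖x + a‖ ≤ ‖x‖ * 1 := by gcongr
        _ < 1 := by rw [mul_one]; exact hx1
    have h3 : ‖x ^ 2 + a * x + b‖ = 1 := by
      rw [Padic.add_eq_max_of_ne (by rw [hbn]; exact h1.ne), hbn]
      exact max_eq_right h1.le
    have h4 := val_zero_of_norm h3
    omega

end

/-- the squarefree `b₁ ∣ b` for which the quartic is everywhere locally solvable -/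
def F1 (a b : ℤ) : Set ℤ :=
  {b₁ : ℤ | Squarefree b₁ ∧ b₁ ∣ b ∧
    (∃ N M e : ℝ, (M ≠ 0 ∨ e ≠ 0) ∧
      N ^ 2 = (b₁ : ℝ) * M ^ 4 + (a : ℝ) * M ^ 2 * e ^ 2 + ((b / b₁ : ℤ) : ℝ) * e ^ 4) ∧
    ∀ (p : ℕ) [Fact p.Prime], ∃ N M e : Padic p, (M ≠ 0 ∨ e ≠ 0) ∧
      N ^ 2 = (b₁ : Padic p) * M ^ 4 + (a : Padic p) * M ^ 2 * e ^ 2
        + ((b / b₁ : ℤ) : Padic p) * e ^ 4}

/-- the classes which come from points everywhere -/
def Gs (a b : ℚ) : Set ℤ :=
  {d : ℤ | Squarefree d ∧ PtC ℝ a b d ∧ ∀ (p : ℕ) [Fact p.Prime], PtC ℚ_[p] a b d}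

theorem F1_eq {a b : ℤ} (hb : b ≠ 0) (hd : a ^ 2 - 4 * b ≠ 0) : F1 a b = Gs a b := by
  ext d
  constructor
  · rintro ⟨h1, h2, h3, h4⟩
    refine ⟨h1, ?_, fun p hp => ?_⟩
    · have := (quart_iff sq_real hb hd h2).1 h3
      simpa using this
    · have := (quart_iff (sq_padic p) hb hd h2).1 (h4 p)
      simpa using this
  · rintro ⟨h1, h2, h3⟩
    have h3' : ∀ (p : ℕ) [Fact p.Prime], PtC ℚ_[p] (a : ℚ_[p]) (b : ℚ_[p]) d := by
      intro p _
      have := h3 p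
      simpa using this
    have h2' : PtC ℝ (a : ℝ) (b : ℝ) d := by simpa using h2
    have hdv : d ∣ b := by
      have h5 : d.natAbs ∣ b.natAbs := by
        apply Pool.Agent.Y667.RP.natAbs_dvd h1
        intro q hq hqd
        have : Fact q.Prime := ⟨hq⟩
        exact Int.natCast_dvd.1 ((h3' q).dvd h1 hqd)
      exact Int.natAbs_dvd_natAbs.1 h5
    exact ⟨h1, hdv, (quart_iff sq_real hb hd hdv).2 h2', fun p hp =>
      (quart_iff (sq_padic p) hb hd hdv).2 (h3' p)⟩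

lemma PtC.scale {K : Type} [Field K] {a b m : K} {d : ℤ} (hm : m ≠ 0) (h : PtC K a b d) :
    PtC K (m ^ 2 * a) (m ^ 4 * b) d := by
  obtain ⟨x, y, hy, hxy, h3⟩ := h
  refine ⟨m ^ 2 * x, m ^ 3 * y, mul_ne_zero (pow_ne_zero 3 hm) hy, ?_, ?_⟩
  · linear_combination m ^ 6 * hxy
  · have : m ^ 2 * x * d = (m * m) * (x * d) := by ring
    rw [this]
    exact (IsSquare.mul_self m).mul h3

lemma Gs_sub {a b m : ℚ} (hm : m ≠ 0) : Gs a b ⊆ Gs (m ^ 2 * a) (m ^ 4 * b) := by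
  rintro d ⟨h1, h2, h3⟩
  refine ⟨h1, ?_, fun p hp => ?_⟩
  · have h4 : (m : ℝ) ≠ 0 := by exact_mod_cast hm
    have := h2.scale h4
    push_cast
    exact this
  · have h4 : (m : ℚ_[p]) ≠ 0 := by exact_mod_cast hm
    have := (h3 p).scale h4
    push_cast
    exact this

theorem Gs_scale {a b m : ℚ} (hm : m ≠ 0) : Gs (m ^ 2 * a) (m ^ 4 * b) = Gs a b := by
  apply Set.Subset.antisymm
  · have h1 := Gs_sub (a := m ^ 2 * a) (b := m ^ 4 * b) (m := m⁻¹) (inv_ne_zero hm)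
    have e1 : m⁻¹ ^ 2 * (m ^ 2 * a) = a := by field_simp
    have e2 : m⁻¹ ^ 4 * (m ^ 4 * b) = b := by field_simp
    rwa [e1, e2] at h1
  · exact Gs_sub hm

end Pool.Agent.Q284.ISO
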