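import Mathlib

/-!
# Integers with few prime factors have density zero
-/

set_option autoImplicit false

namespace Pool.Agent.Q284.ISO

open Finset

/-- the number of the primes of `P` dividing `m` -/
noncomputable def om (P : Finset ℕ) (m : ℕ) : ℝ := ∑ p ∈ P, (if p ∣ m then (1 : ℝ) else 0)

lemma om_le {P : Finset ℕ} (hP : ∀ p ∈ P, p.Prime) {m : ℕ} (hm : m ≠ 0) :
    om P m ≤ (m.primeFactors.card : ℝ) := by
  unfold om
  rw [← sum_filter, sum_const, nsmul_eq_mul, mul_one]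
  apply Nat.cast_le.2
  apply card_le_card
  intro p hp
  rw [mem_filter] at hp
  exact Nat.mem_primeFactors.2 ⟨hP p hp.1, hp.2, hm⟩

lemma cnt (Y p : ℕ) : ∑ m ∈ Ioc 0 Y, (if p ∣ m then (1 : ℝ) else 0) = ((Y / p : ℕ) : ℝ) := by
  rw [← sum_filter, sum_const, nsmul_eq_mul, mul_one, Nat.Ioc_filter_dvd_card_eq_div]

/-- Turan's inequality for a finite set of primes -/
lemma turan {P : Finset ℕ} (hP : ∀ p ∈ P, p.Prime) (Y : ℕ) :
    ∑ m ∈ Ioc 0 Y, (om P m - ∑ p ∈ P, 1 / (p : ℝ)) ^ 2 ≤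
      Y * (∑ p ∈ P, 1 / (p : ℝ)) + 2 * (∑ p ∈ P, 1 / (p : ℝ)) * P.card := by
  obtain ⟨μ, hμ⟩ : ∃ μ : ℝ, μ = ∑ p ∈ P, 1 / (p : ℝ) := ⟨_, rfl⟩
  rw [← hμ]
  have hμ0 : 0 ≤ μ := by rw [hμ]; exact sum_nonneg fun p _ => by positivity
  have h1 : (Y : ℝ) * μ - P.card ≤ ∑ m ∈ Ioc 0 Y, om P m := by
    unfold om
    rw [sum_comm, hμ, mul_sum, card_eq_sum_ones]
    push_cast
    rw [← sum_sub_distrib]
    apply sum_le_sum
    intro p hp
    rw [cnt, mul_one_div]
    have := Nat.lt_floor_add_one ((Y : ℝ) / p)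
    rw [Nat.floor_div_eq_div] at this
    linarith
  have h2 : ∑ m ∈ Ioc 0 Y, om P m ^ 2 ≤ Y * μ ^ 2 + Y * μ := by
    have e1 : ∀ m : ℕ, om P m ^ 2 = ∑ p ∈ P, ∑ q ∈ P,
        (if p ∣ m then (1 : ℝ) else 0) * (if q ∣ m then (1 : ℝ) else 0) := by
      intro m
      unfold om
      rw [pow_two, sum_mul_sum]
    simp only [e1]
    rw [sum_comm]
    have e2 : ∀ p ∈ P, ∑ m ∈ Ioc 0 Y, ∑ q ∈ P, (if p ∣ m then (1 : ℝ) else 0) *
        (if q ∣ m then (1 : ℝ) else 0) ≤ ∑ q ∈ P, (Y * (1 / (p : ℝ)) * (1 / q) +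
          (if p = q then Y * (1 / (p : ℝ)) else 0)) := by
      intro p hp
      rw [sum_comm]
      apply sum_le_sum
      intro q hq
      have hp0 : (0 : ℝ) < p := by exact_mod_cast (hP p hp).pos
      have hq0 : (0 : ℝ) < q := by exact_mod_cast (hP q hq).pos
      by_cases hpq : p = q
      · subst hpq
        rw [if_pos rfl]
        have e3 : ∀ m : ℕ, (if p ∣ m then (1 : ℝ) else 0) * (if p ∣ m then (1 : ℝ) else 0) =
            (if p ∣ m then (1 : ℝ) else 0) := by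
          intro m
          split_ifs <;> norm_num
        simp only [e3]
        rw [cnt]
        have h4 : ((Y / p : ℕ) : ℝ) ≤ Y / p := Nat.cast_div_le
        have h6 : (Y : ℝ) / p = Y * (1 / (p : ℝ)) := by rw [mul_one_div]
        have h5 : 0 ≤ (Y : ℝ) * (1 / (p : ℝ)) * (1 / p) := by positivity
        rw [h6] at h4
        linarith
      · rw [if_neg hpq, add_zero]
        have e3 : ∀ m : ℕ, (if p ∣ m then (1 : ℝ) else 0) * (if q ∣ m then (1 : ℝ) else 0) =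
            (if p * q ∣ m then (1 : ℝ) else 0) := by
          intro m
          have hc : p.Coprime q := (Nat.coprime_primes (hP p hp) (hP q hq)).2 hpq
          have h6 : p * q ∣ m ↔ p ∣ m ∧ q ∣ m :=
            ⟨fun h => ⟨(dvd_mul_right _ _).trans h, (dvd_mul_left _ _).trans h⟩,
              fun h => hc.mul_dvd_of_dvd_of_dvd h.1 h.2⟩
          by_cases hp' : p ∣ m <;> by_cases hq' : q ∣ m <;> simp [h6, hp', hq']
        simp only [e3]
        rw [cnt]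
        have h4 : ((Y / (p * q) : ℕ) : ℝ) ≤ Y / ((p * q : ℕ) : ℝ) := Nat.cast_div_le
        refine h4.trans (le_of_eq ?_)
        push_cast
        field_simp
    refine (sum_le_sum e2).trans (le_of_eq ?_)
    have e4 : ∑ p ∈ P, ∑ q ∈ P, (Y : ℝ) * (1 / (p : ℝ)) * (1 / q) = Y * μ ^ 2 := by
      have e5 : ∀ p ∈ P, ∑ q ∈ P, (Y : ℝ) * (1 / (p : ℝ)) * (1 / q) = Y * (1 / (p : ℝ)) * μ := by
        intro p _
        rw [hμ, mul_sum]
      rw [sum_congr rfl e5, ← sum_mul, ← mul_sum, ← hμ]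
      ring
    have e6 : ∑ p ∈ P, ∑ q ∈ P, (if p = q then (Y : ℝ) * (1 / (p : ℝ)) else 0) = Y * μ := by
      rw [hμ, mul_sum]
      apply sum_congr rfl
      intro p hp
      rw [sum_ite_eq, if_pos hp]
    simp only [sum_add_distrib]
    rw [e4, e6]
  have h3 : ∑ m ∈ Ioc 0 Y, (om P m - μ) ^ 2 =
      ∑ m ∈ Ioc 0 Y, om P m ^ 2 - 2 * μ * ∑ m ∈ Ioc 0 Y, om P m + Y * μ ^ 2 := by
    rw [mul_sum, ← sum_sub_distrib]
    have : (Y : ℝ) * μ ^ 2 = ∑ m ∈ Ioc 0 Y, μ ^ 2 := by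
      rw [sum_const, Nat.card_Ioc, nsmul_eq_mul]
      norm_num
    rw [this, ← sum_add_distrib]
    apply sum_congr rfl
    intro m _
    ring
  rw [h3]
  have h4 : 2 * μ * ((Y : ℝ) * μ - P.card) ≤ 2 * μ * ∑ m ∈ Ioc 0 Y, om P m := by gcongr
  nlinarith

lemma ex_primes (c : ℝ) : ∃ P : Finset ℕ, (∀ p ∈ P, p.Prime) ∧ c ≤ ∑ p ∈ P, 1 / (p : ℝ) := by
  by_contra hcon
  push Not at hcon
  apply Nat.Primes.not_summable_one_div
  apply summable_of_sum_le (c := c)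
  · intro p
    positivity
  · intro s
    have h := hcon (s.map ⟨(fun p : Nat.Primes => (p : ℕ)), Subtype.val_injective⟩) (by
      intro p hp
      rw [mem_map] at hp
      obtain ⟨q, -, rfl⟩ := hp
      exact q.2)
    rw [sum_map] at h
    exact h.le

/-- **Integers with less than `T` prime factors have density zero.** -/
theorem few_omega (T : ℕ) {ε : ℝ} (hε : 0 < ε) : ∃ Y0 : ℕ, ∀ Y : ℕ, Y0 ≤ Y →
    (((Icc 1 Y).filter (fun m => m.primeFactors.card < T)).card : ℝ) ≤ ε * Y := by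
  obtain ⟨P, hP, hc⟩ := ex_primes (2 * T + 8 / ε + 1)
  obtain ⟨μ, hμ⟩ : ∃ μ : ℝ, μ = ∑ p ∈ P, 1 / (p : ℝ) := ⟨_, rfl⟩
  have ht := turan hP
  rw [← hμ] at ht hc
  have h8 : 0 < 8 / ε := by positivity
  have hT0 : (0 : ℝ) ≤ T := Nat.cast_nonneg T
  have hμ1 : 1 ≤ μ := by linarith
  refine ⟨⌈16 * P.card / ε⌉₊, fun Y hY => ?_⟩
  have hY' : 16 * P.card / ε ≤ Y := (Nat.le_ceil _).trans (by exact_mod_cast hY)
  have e0 : Icc 1 Y = Ioc 0 Y := by
    ext m
    rw [mem_Icc, mem_Ioc]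
    omega
  rw [e0]
  obtain ⟨n, hn⟩ : ∃ n : ℝ, n = (((Ioc 0 Y).filter (fun m => m.primeFactors.card < T)).card : ℝ) :=
    ⟨_, rfl⟩
  rw [← hn]
  have h1 : n * (μ / 2) ^ 2 ≤ ∑ m ∈ Ioc 0 Y, (om P m - μ) ^ 2 := by
    rw [hn, ← nsmul_eq_mul, ← sum_const]
    refine le_trans ?_ (sum_le_sum_of_subset_of_nonneg (filter_subset (fun m =>
      m.primeFactors.card < T) _) (fun m _ _ => sq_nonneg _))
    apply sum_le_sum
    intro m hm
    rw [mem_filter, mem_Ioc] at hm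
    have h2 := om_le hP (m := m) (by omega)
    have h3 : (m.primeFactors.card : ℝ) ≤ T := by
      have := hm.2
      exact_mod_cast this.le
    nlinarith
  have h2 := h1.trans (ht Y)
  have hY0 : (0 : ℝ) ≤ Y := Nat.cast_nonneg Y
  have hP0 : (0 : ℝ) ≤ P.card := Nat.cast_nonneg _
  -- divide by `μ / 2` twice
  have h3 : n * μ ≤ 4 * Y + 8 * P.card := by
    have h4 : μ * (n * μ) ≤ μ * (4 * Y + 8 * P.card) := by nlinarith
    exact le_of_mul_le_mul_left h4 (by linarith)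
  have h5 : 8 * (P.card : ℝ) ≤ ε * Y / 2 := by
    rw [div_le_iff₀ hε] at hY'
    linarith
  have h6 : n * (8 / ε) ≤ n * μ := by
    have hn0 : 0 ≤ n := by rw [hn]; positivity
    have : 8 / ε ≤ μ := by linarith
    gcongr
  have h7 : n * 8 ≤ ε * (4 * Y + ε * Y / 2) := by
    have h9 : n * 8 = ε * (n * (8 / ε)) := by field_simp
    rw [h9]
    gcongr
    linarith
  -- it suffices to treat `ε ≤ 1`
  by_cases h1e : ε ≤ 1
  · have : ε * (ε * Y / 2) ≤ ε * (1 * Y / 2) := by gcongr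
    nlinarith
  · push Not at h1e
    have h10 : n ≤ Y := by
      rw [hn]
      have h11 := card_filter_le (Ioc 0 Y) (fun m => m.primeFactors.card < T)
      rw [Nat.card_Ioc] at h11
      exact_mod_cast (by omega :
        ((Ioc 0 Y).filter (fun m => m.primeFactors.card < T)).card ≤ Y)
    nlinarith

end Pool.Agent.Q284.ISO
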