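import Pool.Agent.Q284.ISO.Cls
import Pool.Agent.Y655.RZ.Par3

/-!
# The sets of the quartics for the three 2-isogenies, abstract local data
-/

set_option autoImplicit false

namespace Pool.Agent.Q284.ISO

open Pool.Agent.W262.RK Pool.Agent.W307.SE Pool.Agent.Y667.RP

section Kf

variable {K : Type} [Field K]

lemma ptc0 {A B : K} {d : ℤ} : PtC K (-(A + B)) (A * B) d ↔
    ∃ x y : K, y ≠ 0 ∧ y ^ 2 = x * (x - A) * (x - B) ∧ IsSquare (x * d) := by
  constructor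
  · rintro ⟨x, y, h1, h2, h3⟩
    exact ⟨x, y, h1, by rw [h2]; ring, h3⟩
  · rintro ⟨x, y, h1, h2, h3⟩
    exact ⟨x, y, h1, by rw [h2]; ring, h3⟩

lemma ptc1 {A B : K} {d : ℤ} : PtC K (2 * A - B) (A * (A - B)) d ↔
    ∃ x y : K, y ≠ 0 ∧ y ^ 2 = x * (x - A) * (x - B) ∧ IsSquare ((x - A) * d) := by
  constructor
  · rintro ⟨x, y, h1, h2, h3⟩
    exact ⟨x + A, y, h1, by rw [h2]; ring, by rwa [add_sub_cancel_right]⟩
  · rintro ⟨x, y, h1, h2, h3⟩
    exact ⟨x - A, y, h1, by rw [h2]; ring, h3⟩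

lemma ptc2 {A B : K} {d : ℤ} : PtC K (2 * B - A) (B * (B - A)) d ↔
    ∃ x y : K, y ≠ 0 ∧ y ^ 2 = x * (x - A) * (x - B) ∧ IsSquare ((x - B) * d) := by
  constructor
  · rintro ⟨x, y, h1, h2, h3⟩
    exact ⟨x + B, y, h1, by rw [h2]; ring, by rwa [add_sub_cancel_right]⟩
  · rintro ⟨x, y, h1, h2, h3⟩
    exact ⟨x - B, y, h1, by rw [h2]; ring, h3⟩

variable [CharZero K]

lemma dtc0 (hK : SQ K) {A B : K} {d : ℤ} (hA : A ≠ 0) (hB : B ≠ 0) (hAB : A ≠ B) (hd : d ≠ 0) :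
    PtC K (2 * (A + B)) ((A - B) ^ 2) d ↔
    ∃ x y : K, y ≠ 0 ∧ y ^ 2 = x * (x - A) * (x - B) ∧ IsSquare x ∧ IsSquare ((x - A) * d) :=
  dual_iff hK hA hB hAB hd

lemma dtc1 (hK : SQ K) {A B : K} {d : ℤ} (hA : A ≠ 0) (hB : B ≠ 0) (hAB : A ≠ B) (hd : d ≠ 0) :
    PtC K (-2 * (2 * A - B)) (B ^ 2) d ↔
    ∃ x y : K, y ≠ 0 ∧ y ^ 2 = x * (x - A) * (x - B) ∧ IsSquare (x * d) ∧ IsSquare (x - A) := by
  have h := dual_iff hK (A := -A) (B := B - A) (d := d) (neg_ne_zero.2 hA)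
    (sub_ne_zero.2 (Ne.symm hAB)) (by intro h; apply hB; linear_combination -h) hd
  have e1 : 2 * (-A + (B - A)) = -2 * (2 * A - B) := by ring
  have e2 : (-A - (B - A)) ^ 2 = B ^ 2 := by ring
  rw [e1, e2] at h
  rw [h]
  constructor
  · rintro ⟨x, y, h1, h2, h3, h4⟩
    refine ⟨x + A, y, h1, by rw [h2]; ring, ?_, by rwa [add_sub_cancel_right]⟩
    rwa [sub_neg_eq_add] at h4
  · rintro ⟨x, y, h1, h2, h3, h4⟩
    refine ⟨x - A, y, h1, by rw [h2]; ring, h4, ?_⟩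
    rwa [sub_neg_eq_add, sub_add_cancel]

lemma dtc2 (hK : SQ K) {A B : K} {d : ℤ} (hA : A ≠ 0) (hB : B ≠ 0) (hAB : A ≠ B) (hd : d ≠ 0) :
    PtC K (-2 * (2 * B - A)) (A ^ 2) d ↔
    ∃ x y : K, y ≠ 0 ∧ y ^ 2 = x * (x - A) * (x - B) ∧ IsSquare (x * d) ∧ IsSquare (x - B) := by
  have h := dual_iff hK (A := -B) (B := A - B) (d := d) (neg_ne_zero.2 hB)
    (sub_ne_zero.2 hAB) (by intro h; apply hA; linear_combination -h) hd
  have e1 : 2 * (-B + (A - B)) = -2 * (2 * B - A) := by ring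
  have e2 : (-B - (A - B)) ^ 2 = A ^ 2 := by ring
  rw [e1, e2] at h
  rw [h]
  constructor
  · rintro ⟨x, y, h1, h2, h3, h4⟩
    refine ⟨x + B, y, h1, by rw [h2]; ring, ?_, by rwa [add_sub_cancel_right]⟩
    rwa [sub_neg_eq_add] at h4
  · rintro ⟨x, y, h1, h2, h3, h4⟩
    refine ⟨x - B, y, h1, by rw [h2]; ring, h4, ?_⟩
    rwa [sub_neg_eq_add, sub_add_cancel]

omit [CharZero K] in
lemma isSq_of_mul {x y : K} (hx : x ≠ 0) (h1 : IsSquare x) (h2 : IsSquare (x * y)) :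
    IsSquare y := by
  obtain ⟨a, ha⟩ := h1
  obtain ⟨b, hb⟩ := h2
  have ha0 : a ≠ 0 := by rintro rfl; exact hx (by rw [ha, mul_zero])
  refine ⟨b / a, ?_⟩
  have : y = (b * b) / (a * a) := by
    rw [← hb, ← ha]; field_simp
  rw [this]
  field_simp

omit [CharZero K] in
lemma ne_of_pt {A B x y : K} (hy : y ≠ 0) (h : y ^ 2 = x * (x - A) * (x - B)) :
    x ≠ 0 ∧ x - A ≠ 0 ∧ x - B ≠ 0 := by
  have h0 : x * (x - A) * (x - B) ≠ 0 := by rw [← h]; exact pow_ne_zero 2 hy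
  exact ⟨left_ne_zero_of_mul (left_ne_zero_of_mul h0), right_ne_zero_of_mul
    (left_ne_zero_of_mul h0), right_ne_zero_of_mul h0⟩

omit [CharZero K] in
/-- the product of the three components is a square -/
lemma third {A B x y : K} (hy : y ≠ 0) (h : y ^ 2 = x * (x - A) * (x - B)) {u v w : K}
    (h1 : IsSquare (x * u)) (h2 : IsSquare ((x - A) * v)) (huv : u ≠ 0) (hv : v ≠ 0)
    (h3 : IsSquare (u * v * w)) : IsSquare ((x - B) * w) := by
  obtain ⟨k1, k2, k3⟩ := ne_of_pt hy h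
  have h4 := (h1.mul h2).mul (IsSquare.mul_self y)
  have h5 : IsSquare ((x - B) * (u * v)) := by
    have e' : x * u * ((x - A) * v) * (y * y) = (x * (x - A)) ^ 2 * ((x - B) * (u * v)) := by
      have : y * y = x * (x - A) * (x - B) := by rw [← h]; ring
      rw [this]; ring
    rw [e'] at h4
    exact isSq_of_mul (pow_ne_zero 2 (mul_ne_zero k1 k2)) ⟨x * (x - A), by ring⟩ h4
  have h6 := h5.mul h3
  have e : (x - B) * (u * v) * (u * v * w) = (u * v) ^ 2 * ((x - B) * w) := by ring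
  rw [e] at h6
  exact isSq_of_mul (pow_ne_zero 2 (mul_ne_zero huv hv)) ⟨u * v, by ring⟩ h6

end Kf

/-- the classes which come from points everywhere, integer coefficients -/
def Gz (a b : ℤ) : Set ℤ :=
  {d : ℤ | Squarefree d ∧ PtC ℝ a b d ∧ ∀ (p : ℕ) [Fact p.Prime], PtC ℚ_[p] a b d}

lemma Gs_cast (a b : ℤ) : Gs a b = Gz a b := by
  unfold Gs Gz
  simp

lemma ex_nonres {p : ℕ} [hp : Fact p.Prime] (hp2 : p ≠ 2) :
    ∃ e : ℤ, Squarefree e ∧ ¬ (p : ℤ) ∣ e ∧ sg0 p e = true := by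
  obtain ⟨a, ha⟩ := FiniteField.exists_nonsquare (F := ZMod p) (by
    rwa [ZMod.ringChar_zmod_n])
  obtain ⟨n, rfl⟩ := ZMod.intCast_surjective a
  have hn0 : n ≠ 0 := by
    rintro rfl
    exact ha ⟨0, by simp⟩
  obtain ⟨c, b, hcb, hc⟩ := Nat.sq_mul_squarefree n.natAbs
  have key : ∃ e : ℤ, Squarefree e ∧ n = (b : ℤ) ^ 2 * e := by
    rcases Int.natAbs_eq n with h | h
    · refine ⟨c, Int.squarefree_natCast.2 hc, ?_⟩
      rw [h, ← hcb]; push_cast; ring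
    · refine ⟨-c, by rw [← Int.squarefree_natAbs, Int.natAbs_neg, Int.natAbs_natCast]; exact hc,
        ?_⟩
      rw [h, ← hcb]; push_cast; ring
  obtain ⟨e, he, hne⟩ := key
  have hns : ¬ IsSquare ((e : ZMod p)) := by
    rintro ⟨r, hr⟩
    apply ha
    refine ⟨b * r, ?_⟩
    rw [hne]
    push_cast
    rw [hr]
    ring
  have hpe : ¬ (p : ℤ) ∣ e := by
    intro h
    apply hns
    rw [(ZMod.intCast_zmod_eq_zero_iff_dvd e p).2 h]
    exact ⟨0, by simp⟩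
  refine ⟨e, he, hpe, ?_⟩
  unfold sg0
  rw [decide_eq_true_iff, ← jacobiSym.legendreSym.to_jacobiSym, legendreSym.eq_neg_one_iff]
  exact hns

/-- squarefree integers in all the classes -/
lemma ex_dvsgn {p : ℕ} [hp : Fact p.Prime] (hp2 : p ≠ 2) (w g : Bool) :
    ∃ e : ℤ, Squarefree e ∧ dv p e = w ∧ sgn p e = g := by
  have key : ∃ e : ℤ, Squarefree e ∧ ¬ (p : ℤ) ∣ e ∧ sg0 p e = g := by
    cases g
    · refine ⟨1, squarefree_one, (Nat.prime_iff_prime_int.1 hp.out).not_dvd_one, ?_⟩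
      unfold sg0
      simp
    · exact ex_nonres hp2
  obtain ⟨e, he, hpe, hg⟩ := key
  cases w
  · exact ⟨e, he, by unfold dv; rw [decide_eq_false_iff_not]; exact hpe, by
      rw [sgn_ndvd hp.out hpe, hg]⟩
  · refine ⟨p * e, ?_, by unfold dv; rw [decide_eq_true_iff]; exact dvd_mul_right _ _, ?_⟩
    · rw [squarefree_mul_iff]
      have h1 : IsCoprime (p : ℤ) e :=
        ((Nat.prime_iff_prime_int.1 hp.out).coprime_iff_not_dvd).2 hpe
      exact ⟨h1.isRelPrime, (Nat.prime_iff_prime_int.1 hp.out).squarefree, he⟩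
    · rw [sgn_dvd (dvd_mul_right _ _), Int.mul_ediv_cancel_left _
        (by exact_mod_cast hp.out.ne_zero), hg]

lemma dv_one {p : ℕ} (hp : p.Prime) : dv p 1 = false := by
  unfold dv
  rw [decide_eq_false_iff_not]
  exact (Nat.prime_iff_prime_int.1 hp).not_dvd_one

lemma sgn_one' {p : ℕ} (hp : p.Prime) : sgn p 1 = false := by
  rw [sgn_ndvd hp (Nat.prime_iff_prime_int.1 hp).not_dvd_one]
  unfold sg0
  simp

/-- the squarefree integers with local conditions -/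
def GA (M : ℕ) (P : ℕ → Bool → Bool → Prop) : Set ℤ :=
  {x | Squarefree x ∧ (∀ q : ℕ, q.Prime → (q : ℤ) ∣ x → q ∣ 2 * M) ∧
    ∀ p ∈ M.primeFactors, P p (dv p x) (sgn p x)}

/-- the squarefree integers, squares over `ℚ_2` and `ℝ`, with local conditions -/
def GB (M : ℕ) (P : ℕ → Bool → Bool → Prop) : Set ℤ := {x | x ∈ GA M P ∧ 0 < x ∧ x % 8 = 1}

/-- the projections of the local conditions -/
def pr0 (L : ℕ → Bool → Bool → Bool → Bool → Prop) (p : ℕ) (v h : Bool) : Prop :=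
  ∃ w g, L p v w h g

def pr1 (L : ℕ → Bool → Bool → Bool → Bool → Prop) (p : ℕ) (w g : Bool) : Prop :=
  ∃ v h, L p v w h g

def pr2 (L : ℕ → Bool → Bool → Bool → Bool → Prop) (p : ℕ) (v' h' : Bool) : Prop :=
  ∃ v w h g, L p v w h g ∧ v' = xor v w ∧ h' = xor h g

/-- the classes with one trivial component -/
def in0 (L : ℕ → Bool → Bool → Bool → Bool → Prop) (p : ℕ) (w g : Bool) : Prop :=
  L p false w false g

def in1 (L : ℕ → Bool → Bool → Bool → Bool → Prop) (p : ℕ) (v h : Bool) : Prop :=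
  L p v false h false

def in2 (L : ℕ → Bool → Bool → Bool → Bool → Prop) (p : ℕ) (v h : Bool) : Prop :=
  L p v v h h

/-- the local data -/
structure LD (M : ℕ) (L : ℕ → Bool → Bool → Bool → Bool → Prop) (A B : ℤ) : Prop where
  sq : Squarefree M
  odd : Odd M
  A0 : A ≠ 0
  B0 : B ≠ 0
  AB : A ≠ B
  loc : ∀ (p : ℕ) [Fact p.Prime], p ∣ M → ∀ d1 d2 : ℤ, Squarefree d1 → Squarefree d2 →
    (Loc ℚ_[p] A B d1 d2 ↔ L p (dv p d1) (dv p d2) (sgn p d1) (sgn p d2))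
  real : ∀ d1 d2 : ℤ, d2 ≠ 0 → 0 < d1 → Loc ℝ A B d1 d2
  pos : ∀ x y : ℝ, y ≠ 0 → y ^ 2 = x * (x - A) * (x - B) → 0 < x
  two : ∀ d1 d2 : ℤ, Squarefree d2 → d1 % 8 = 1 → Loc ℚ_[2] A B d1 d2
  sq2 : ∀ x y : ℚ_[2], y ≠ 0 → y ^ 2 = x * (x - A) * (x - B) → IsSquare x
  good : ∀ (q : ℕ) [Fact q.Prime], q ≠ 2 → ¬ q ∣ M → ∀ d1 d2 : ℤ, Squarefree d1 →
    Squarefree d2 → (Loc ℚ_[q] A B d1 d2 ↔ ¬ (q : ℤ) ∣ d1 ∧ ¬ (q : ℤ) ∣ d2)

section

variable {M : ℕ} {L : ℕ → Bool → Bool → Bool → Bool → Prop} {A B : ℤ}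

lemma LD.ne2 (h : LD M L A B) {p : ℕ} (hp : p ∣ M) : p ≠ 2 := by
  rintro rfl
  exact (Nat.not_even_iff_odd.2 h.odd) (even_iff_two_dvd.2 hp)

/-- an odd integer -/
lemma mod8 {d : ℤ} (hd : Squarefree d) (h : IsSquare (d : ℚ_[2])) : d % 8 = 1 := by
  apply mod_of_sq _ h
  intro h2
  obtain ⟨z, hz⟩ := h
  have hd0 : (d : ℚ_[2]) ≠ 0 := by exact_mod_cast hd.ne_zero
  have hz0 : z ≠ 0 := by
    rintro rfl
    exact hd0 (by rw [hz, mul_zero])
  have v2 : (d : ℚ_[2]).valuation = 2 * z.valuation := by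
    rw [hz, Padic.valuation_mul hz0 hz0]
    ring
  have v3 : (d : ℚ_[2]).valuation = 1 := by
    obtain ⟨d', hd'⟩ := h2
    have hnd : ¬ ((2 : ℕ) : ℤ) ∣ d' := by
      intro h
      have h1 : (2 : ℤ) * 2 ∣ d := by rw [hd']; exact mul_dvd_mul_left _ h
      have h2 := hd _ h1
      exact Int.prime_two.not_isUnit h2
    have hd'0 : (d' : ℚ_[2]) ≠ 0 := by
      intro h
      apply hd0
      rw [hd']
      push_cast
      rw [h, mul_zero]
    rw [hd']
    push_cast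
    rw [Padic.valuation_mul two_ne_zero hd'0, val_zero_of_norm (val_int_unit hnd)]
    have := Padic.valuation_p (p := 2)
    push_cast at this
    rw [this]
    norm_num
  omega

/-- the conditions at the places outside `M` for the classes `d1` with `d1 > 0`, `d1 ≡ 1 (8)` -/
lemma LD.out (h : LD M L A B) {d1 d2 : ℤ} (q1 : Squarefree d1) (q2 : Squarefree d2)
    (hp : 0 < d1) (h8 : d1 % 8 = 1) (s1 : ∀ q : ℕ, q.Prime → (q : ℤ) ∣ d1 → q ∣ 2 * M)
    (s2 : ∀ q : ℕ, q.Prime → (q : ℤ) ∣ d2 → q ∣ 2 * M) (q : ℕ) [hq : Fact q.Prime]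
    (hqM : ¬ q ∣ M) : Loc ℚ_[q] A B d1 d2 := by
  by_cases hq2 : q = 2
  · subst hq2
    exact h.two d1 d2 q2 h8
  · have k : ∀ d : ℤ, (∀ q : ℕ, q.Prime → (q : ℤ) ∣ d → q ∣ 2 * M) → ¬ (q : ℤ) ∣ d := by
      intro d hd h'
      rcases (hq.out.dvd_mul).1 (hd q hq.out h') with h'' | h''
      · exact hq2 ((Nat.prime_dvd_prime_iff_eq hq.out Nat.prime_two).1 h'')
      · exact hqM h''
    exact (h.good q hq2 hqM d1 d2 q1 q2).2 ⟨k d1 s1, k d2 s2⟩

lemma one_dvd_prime (M : ℕ) : ∀ q : ℕ, q.Prime → (q : ℤ) ∣ 1 → q ∣ 2 * M := fun _ hq h =>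
  absurd h (Nat.prime_iff_prime_int.1 hq).not_dvd_one

theorem LD.s0 (h : LD M L A B) : Gz (-(A + B)) (A * B) = GB M (pr0 L) := by
  ext d
  constructor
  · rintro ⟨h1, h2, h3⟩
    have h3' : ∀ (p : ℕ) [Fact p.Prime], ∃ x y : ℚ_[p], y ≠ 0 ∧
        y ^ 2 = x * (x - A) * (x - B) ∧ IsSquare (x * d) := by
      intro p _
      have := h3 p
      push_cast at this
      exact ptc0.1 this
    push_cast at h2
    obtain ⟨x, y, hy, hxy, hsq⟩ := ptc0.1 h2
    have hx := h.pos x y hy hxy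
    have hd0 : 0 < d := by
      have k1 : 0 ≤ x * d := hsq.nonneg
      have k2 : 0 ≤ (d : ℝ) := nonneg_of_mul_nonneg_right k1 hx
      have k3 : 0 ≤ d := by exact_mod_cast k2
      have := h1.ne_zero
      omega
    have h8 : d % 8 = 1 := by
      obtain ⟨x, y, hy, hxy, hsq⟩ := h3' 2
      exact mod8 h1 (isSq_of_mul (ne_of_pt hy hxy).1 (h.sq2 x y hy hxy) hsq)
    refine ⟨⟨h1, ?_, ?_⟩, hd0, h8⟩
    · intro q hq hqd
      have : Fact q.Prime := ⟨hq⟩
      by_contra hcon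
      have hq2 : q ≠ 2 := by
        rintro rfl
        exact hcon (dvd_mul_right _ _)
      have hqM : ¬ q ∣ M := fun h' => hcon (h'.mul_left _)
      obtain ⟨x, y, hy, hxy, hsq⟩ := h3' q
      obtain ⟨e, he, hsq'⟩ := ex_rep (ne_of_pt hy hxy).2.1
      exact ((h.good q hq2 hqM d e h1 he).1 ⟨x, y, hy, hxy, hsq, hsq'⟩).1 hqd
    · intro p hp
      have hpp : Fact p.Prime := ⟨Nat.prime_of_mem_primeFactors hp⟩
      obtain ⟨x, y, hy, hxy, hsq⟩ := h3' p
      obtain ⟨e, he, hsq'⟩ := ex_rep (ne_of_pt hy hxy).2.1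
      exact ⟨_, _, (h.loc p (Nat.dvd_of_mem_primeFactors hp) d e h1 he).1
        ⟨x, y, hy, hxy, hsq, hsq'⟩⟩
  · rintro ⟨⟨h1, h2, h3⟩, hd0, h8⟩
    refine ⟨h1, ?_, fun p hp => ?_⟩
    · push_cast
      rw [ptc0]
      obtain ⟨x, y, k1, k2, k3, -⟩ := h.real d 1 one_ne_zero hd0
      exact ⟨x, y, k1, k2, k3⟩
    · push_cast
      rw [ptc0]
      by_cases hpM : p ∣ M
      · obtain ⟨w, g, hL⟩ := h3 p (Nat.mem_primeFactors.2 ⟨hp.out, hpM, h.sq.ne_zero⟩)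
        obtain ⟨e, he, rfl, rfl⟩ := ex_dvsgn (h.ne2 hpM) w g
        obtain ⟨x, y, k1, k2, k3, -⟩ := (h.loc p hpM d e h1 he).2 hL
        exact ⟨x, y, k1, k2, k3⟩
      · obtain ⟨x, y, k1, k2, k3, -⟩ := h.out h1 squarefree_one hd0 h8 h2 (one_dvd_prime M) p hpM
        exact ⟨x, y, k1, k2, k3⟩

theorem LD.s1 (h : LD M L A B) : Gz (2 * A - B) (A * (A - B)) = GA M (pr1 L) := by
  ext d
  constructor
  · rintro ⟨h1, h2, h3⟩
    have h3' : ∀ (p : ℕ) [Fact p.Prime], ∃ x y : ℚ_[p], y ≠ 0 ∧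
        y ^ 2 = x * (x - A) * (x - B) ∧ IsSquare ((x - A) * d) := by
      intro p _
      have := h3 p
      push_cast at this
      exact ptc1.1 this
    refine ⟨h1, ?_, ?_⟩
    · intro q hq hqd
      have : Fact q.Prime := ⟨hq⟩
      by_contra hcon
      have hq2 : q ≠ 2 := by
        rintro rfl
        exact hcon (dvd_mul_right _ _)
      have hqM : ¬ q ∣ M := fun h' => hcon (h'.mul_left _)
      obtain ⟨x, y, hy, hxy, hsq⟩ := h3' q
      obtain ⟨e, he, hsq'⟩ := ex_rep (ne_of_pt hy hxy).1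
      exact ((h.good q hq2 hqM e d he h1).1 ⟨x, y, hy, hxy, hsq', hsq⟩).2 hqd
    · intro p hp
      have hpp : Fact p.Prime := ⟨Nat.prime_of_mem_primeFactors hp⟩
      obtain ⟨x, y, hy, hxy, hsq⟩ := h3' p
      obtain ⟨e, he, hsq'⟩ := ex_rep (ne_of_pt hy hxy).1
      exact ⟨_, _, (h.loc p (Nat.dvd_of_mem_primeFactors hp) e d he h1).1
        ⟨x, y, hy, hxy, hsq', hsq⟩⟩
  · rintro ⟨h1, h2, h3⟩
    refine ⟨h1, ?_, fun p hp => ?_⟩
    · push_cast
      rw [ptc1]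
      obtain ⟨x, y, k1, k2, -, k3⟩ := h.real 1 d h1.ne_zero one_pos
      exact ⟨x, y, k1, k2, k3⟩
    · push_cast
      rw [ptc1]
      by_cases hpM : p ∣ M
      · obtain ⟨v, x, hL⟩ := h3 p (Nat.mem_primeFactors.2 ⟨hp.out, hpM, h.sq.ne_zero⟩)
        obtain ⟨e, he, rfl, rfl⟩ := ex_dvsgn (h.ne2 hpM) v x
        obtain ⟨x, y, k1, k2, -, k3⟩ := (h.loc p hpM e d he h1).2 hL
        exact ⟨x, y, k1, k2, k3⟩
      · obtain ⟨x, y, k1, k2, -, k3⟩ := h.out squarefree_one h1 one_pos (by norm_num)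
          (one_dvd_prime M) h2 p hpM
        exact ⟨x, y, k1, k2, k3⟩

/-- two components give the third -/
lemma third_int {K : Type} [Field K] [CharZero K] {e d : ℤ} (he : Squarefree e)
    (hd : Squarefree d) {x y : K} (hy : y ≠ 0) (h : y ^ 2 = x * (x - A) * (x - B))
    (h1 : IsSquare (x * e)) : IsSquare ((x - A) * (sp e d : ℤ)) ↔ IsSquare ((x - B) * d) := by
  have he0 : (e : K) ≠ 0 := by exact_mod_cast he.ne_zero
  have hd0 : (d : K) ≠ 0 := by exact_mod_cast hd.ne_zero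
  have hs0 : ((sp e d : ℤ) : K) ≠ 0 := by exact_mod_cast (sp_sqf he hd).ne_zero
  have hsq : IsSquare ((e : K) * d * (sp e d : ℤ)) := by
    obtain ⟨r, hr⟩ := sp_sq (b := d) he
    exact ⟨(r : K), by exact_mod_cast hr⟩
  constructor
  · intro h2
    apply third hy h h1 h2 he0 hs0
    have e1 : (e : K) * (sp e d : ℤ) * d = e * d * (sp e d : ℤ) := by ring
    rw [e1]
    exact hsq
  · intro h2
    have h' : y ^ 2 = x * (x - B) * (x - A) := by rw [h]; ring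
    exact third hy h' h1 h2 he0 hd0 hsq

theorem LD.s2 (h : LD M L A B) : Gz (2 * B - A) (B * (B - A)) = GA M (pr2 L) := by
  ext d
  constructor
  · rintro ⟨h1, h2, h3⟩
    have h3' : ∀ (p : ℕ) [Fact p.Prime], ∃ x y : ℚ_[p], y ≠ 0 ∧
        y ^ 2 = x * (x - A) * (x - B) ∧ IsSquare ((x - B) * d) := by
      intro p _
      have := h3 p
      push_cast at this
      exact ptc2.1 this
    refine ⟨h1, ?_, ?_⟩
    · intro q hq hqd
      have : Fact q.Prime := ⟨hq⟩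
      by_contra hcon
      have hq2 : q ≠ 2 := by
        rintro rfl
        exact hcon (dvd_mul_right _ _)
      have hqM : ¬ q ∣ M := fun h' => hcon (h'.mul_left _)
      obtain ⟨x, y, hy, hxy, hsq⟩ := h3' q
      obtain ⟨e, he, hsq'⟩ := ex_rep (ne_of_pt hy hxy).1
      have h4 := (h.good q hq2 hqM e (sp e d) he (sp_sqf he h1)).1
        ⟨x, y, hy, hxy, hsq', (third_int he h1 hy hxy hsq').2 hsq⟩
      have h5 := (sp_dv he h1 q hq).1
      unfold dv at h5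
      rw [decide_eq_false h4.1, decide_eq_false h4.2, decide_eq_true hqd] at h5
      exact absurd h5 (by decide)
    · intro p hp
      have hpp : Fact p.Prime := ⟨Nat.prime_of_mem_primeFactors hp⟩
      obtain ⟨x, y, hy, hxy, hsq⟩ := h3' p
      obtain ⟨e, he, hsq'⟩ := ex_rep (ne_of_pt hy hxy).1
      refine ⟨_, _, _, _, (h.loc p (Nat.dvd_of_mem_primeFactors hp) e (sp e d) he
        (sp_sqf he h1)).1 ⟨x, y, hy, hxy, hsq', (third_int he h1 hy hxy hsq').2 hsq⟩, ?_, ?_⟩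
      · rw [(sp_dv he h1 p hpp.out).1]
        cases dv p e <;> cases dv p d <;> rfl
      · rw [(sp_dv he h1 p hpp.out).2]
        cases sgn p e <;> cases sgn p d <;> rfl
  · rintro ⟨h1, h2, h3⟩
    refine ⟨h1, ?_, fun p hp => ?_⟩
    · push_cast
      rw [ptc2]
      obtain ⟨x, y, k1, k2, k4, k3⟩ := h.real 1 (sp 1 d) (sp_sqf squarefree_one h1).ne_zero one_pos
      exact ⟨x, y, k1, k2, (third_int squarefree_one h1 k1 k2 k4).1 k3⟩
    · push_cast
      rw [ptc2]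
      by_cases hpM : p ∣ M
      · obtain ⟨v, w, x, g, hL, e1, e2⟩ := h3 p (Nat.mem_primeFactors.2
          ⟨hp.out, hpM, h.sq.ne_zero⟩)
        obtain ⟨e, he, rfl, rfl⟩ := ex_dvsgn (h.ne2 hpM) v x
        have f1 : w = dv p (sp e d) := by
          rw [(sp_dv he h1 p hp.out).1, e1]
          cases dv p e <;> cases w <;> rfl
        have f2 : g = sgn p (sp e d) := by
          rw [(sp_dv he h1 p hp.out).2, e2]
          cases sgn p e <;> cases g <;> rfl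
        rw [f1, f2] at hL
        obtain ⟨x, y, k1, k2, k4, k3⟩ := (h.loc p hpM e (sp e d) he (sp_sqf he h1)).2 hL
        exact ⟨x, y, k1, k2, (third_int he h1 k1 k2 k4).1 k3⟩
      · have hs : ∀ q : ℕ, q.Prime → (q : ℤ) ∣ sp 1 d → q ∣ 2 * M := by
          intro q hq hqd
          rcases sp_dvd squarefree_one hq hqd with h' | h'
          · exact one_dvd_prime M q hq h'
          · exact h2 q hq h'
        obtain ⟨x, y, k1, k2, k4, k3⟩ := h.out squarefree_one (sp_sqf squarefree_one h1) one_pos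
          (by norm_num) (one_dvd_prime M) hs p hpM
        exact ⟨x, y, k1, k2, (third_int squarefree_one h1 k1 k2 k4).1 k3⟩

lemma loc1_iff {K : Type} [Field K] {d : ℤ} : Loc K A B 1 d ↔
    ∃ x y : K, y ≠ 0 ∧ y ^ 2 = x * (x - A) * (x - B) ∧ IsSquare x ∧ IsSquare ((x - A) * d) := by
  unfold Loc
  simp

lemma loc2_iff {K : Type} [Field K] {d : ℤ} : Loc K A B d 1 ↔
    ∃ x y : K, y ≠ 0 ∧ y ^ 2 = x * (x - A) * (x - B) ∧ IsSquare (x * d) ∧ IsSquare (x - A) := by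
  unfold Loc
  simp

lemma loc3_iff {K : Type} [Field K] [CharZero K] {d : ℤ} (hd : d ≠ 0) : Loc K A B d d ↔
    ∃ x y : K, y ≠ 0 ∧ y ^ 2 = x * (x - A) * (x - B) ∧ IsSquare (x * d) ∧ IsSquare (x - B) := by
  have hd0 : (d : K) ≠ 0 := by exact_mod_cast hd
  have hs : IsSquare ((d : K) * d * 1) := ⟨d, by ring⟩
  constructor
  · rintro ⟨x, y, h1, h2, h3, h4⟩
    refine ⟨x, y, h1, h2, h3, ?_⟩
    have := third h1 h2 h3 h4 hd0 hd0 hs
    rwa [mul_one] at this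
  · rintro ⟨x, y, h1, h2, h3, h4⟩
    refine ⟨x, y, h1, h2, h3, ?_⟩
    have h' : y ^ 2 = x * (x - B) * (x - A) := by rw [h2]; ring
    have hs' : IsSquare ((d : K) * 1 * d) := ⟨d, by ring⟩
    exact third h1 h' h3 (by rwa [mul_one]) hd0 one_ne_zero hs'

lemma castne {K : Type} [Field K] [CharZero K] (h : LD M L A B) :
    (A : K) ≠ 0 ∧ (B : K) ≠ 0 ∧ (A : K) ≠ B :=
  ⟨by exact_mod_cast h.A0, by exact_mod_cast h.B0, by exact_mod_cast h.AB⟩

theorem LD.d0 (h : LD M L A B) : Gz (2 * (A + B)) ((A - B) ^ 2) = GA M (in0 L) := by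
  ext d
  constructor
  · rintro ⟨h1, h2, h3⟩
    have h3' : ∀ (p : ℕ) [Fact p.Prime], Loc ℚ_[p] A B 1 d := by
      intro p _
      have := h3 p
      push_cast at this
      obtain ⟨c1, c2, c3⟩ := castne (K := ℚ_[p]) h
      exact loc1_iff.2 ((dtc0 (sq_padic p) c1 c2 c3 h1.ne_zero).1 this)
    refine ⟨h1, ?_, ?_⟩
    · intro q hq hqd
      have : Fact q.Prime := ⟨hq⟩
      by_contra hcon
      have hq2 : q ≠ 2 := by
        rintro rfl
        exact hcon (dvd_mul_right _ _)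
      have hqM : ¬ q ∣ M := fun h' => hcon (h'.mul_left _)
      exact ((h.good q hq2 hqM 1 d squarefree_one h1).1 (h3' q)).2 hqd
    · intro p hp
      have hpp : Fact p.Prime := ⟨Nat.prime_of_mem_primeFactors hp⟩
      have := (h.loc p (Nat.dvd_of_mem_primeFactors hp) 1 d squarefree_one h1).1 (h3' p)
      rw [dv_one hpp.out, sgn_one' hpp.out] at this
      exact this
  · rintro ⟨h1, h2, h3⟩
    refine ⟨h1, ?_, fun p hp => ?_⟩
    · push_cast
      obtain ⟨c1, c2, c3⟩ := castne (K := ℝ) h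
      rw [dtc0 sq_real c1 c2 c3 h1.ne_zero, ← loc1_iff]
      exact h.real 1 d h1.ne_zero one_pos
    · push_cast
      obtain ⟨c1, c2, c3⟩ := castne (K := ℚ_[p]) h
      rw [dtc0 (sq_padic p) c1 c2 c3 h1.ne_zero, ← loc1_iff]
      by_cases hpM : p ∣ M
      · apply (h.loc p hpM 1 d squarefree_one h1).2
        rw [dv_one hp.out, sgn_one' hp.out]
        exact h3 p (Nat.mem_primeFactors.2 ⟨hp.out, hpM, h.sq.ne_zero⟩)
      · exact h.out squarefree_one h1 one_pos (by norm_num) (one_dvd_prime M) h2 p hpM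

/-- the common part of the last two cases -/
lemma LD.dd (h : LD M L A B) {d : ℤ} (h1 : Squarefree d) (e : ℤ) (he : Squarefree e)
    (hr : Loc ℝ A B d e) (h3 : ∀ (p : ℕ) [Fact p.Prime], Loc ℚ_[p] A B d e) :
    0 < d ∧ d % 8 = 1 ∧ (∀ q : ℕ, q.Prime → (q : ℤ) ∣ d → q ∣ 2 * M) ∧
      ∀ p ∈ M.primeFactors, L p (dv p d) (dv p e) (sgn p d) (sgn p e) := by
  obtain ⟨x, y, hy, hxy, hsq, -⟩ := hr
  have hx := h.pos x y hy hxy
  have hd0 : 0 < d := by
    have k1 : 0 ≤ x * d := hsq.nonneg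
    have k2 : 0 ≤ (d : ℝ) := nonneg_of_mul_nonneg_right k1 hx
    have k3 : 0 ≤ d := by exact_mod_cast k2
    have := h1.ne_zero
    omega
  have h8 : d % 8 = 1 := by
    obtain ⟨x, y, hy, hxy, hsq, -⟩ := h3 2
    exact mod8 h1 (isSq_of_mul (ne_of_pt hy hxy).1 (h.sq2 x y hy hxy) hsq)
  refine ⟨hd0, h8, ?_, ?_⟩
  · intro q hq hqd
    have : Fact q.Prime := ⟨hq⟩
    by_contra hcon
    have hq2 : q ≠ 2 := by
      rintro rfl
      exact hcon (dvd_mul_right _ _)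
    have hqM : ¬ q ∣ M := fun h' => hcon (h'.mul_left _)
    exact ((h.good q hq2 hqM d e h1 he).1 (h3 q)).1 hqd
  · intro p hp
    have hpp : Fact p.Prime := ⟨Nat.prime_of_mem_primeFactors hp⟩
    exact (h.loc p (Nat.dvd_of_mem_primeFactors hp) d e h1 he).1 (h3 p)

theorem LD.d1 (h : LD M L A B) : Gz (-2 * (2 * A - B)) (B ^ 2) = GB M (in1 L) := by
  ext d
  constructor
  · rintro ⟨h1, h2, h3⟩
    obtain ⟨k1, k2, k3, k4⟩ := h.dd h1 1 squarefree_one (by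
        push_cast at h2
        obtain ⟨c1, c2, c3⟩ := castne (K := ℝ) h
        exact loc2_iff.2 ((dtc1 sq_real c1 c2 c3 h1.ne_zero).1 h2)) (by
        intro p _
        have := h3 p
        push_cast at this
        obtain ⟨c1, c2, c3⟩ := castne (K := ℚ_[p]) h
        exact loc2_iff.2 ((dtc1 (sq_padic p) c1 c2 c3 h1.ne_zero).1 this))
    refine ⟨⟨h1, k3, fun p hp => ?_⟩, k1, k2⟩
    have hpp := Nat.prime_of_mem_primeFactors hp
    have := k4 p hp
    rw [dv_one hpp, sgn_one' hpp] at this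
    exact this
  · rintro ⟨⟨h1, h2, h3⟩, hd0, h8⟩
    refine ⟨h1, ?_, fun p hp => ?_⟩
    · push_cast
      obtain ⟨c1, c2, c3⟩ := castne (K := ℝ) h
      rw [dtc1 sq_real c1 c2 c3 h1.ne_zero, ← loc2_iff]
      exact h.real d 1 one_ne_zero hd0
    · push_cast
      obtain ⟨c1, c2, c3⟩ := castne (K := ℚ_[p]) h
      rw [dtc1 (sq_padic p) c1 c2 c3 h1.ne_zero, ← loc2_iff]
      by_cases hpM : p ∣ M
      · apply (h.loc p hpM d 1 h1 squarefree_one).2
        rw [dv_one hp.out, sgn_one' hp.out]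
        exact h3 p (Nat.mem_primeFactors.2 ⟨hp.out, hpM, h.sq.ne_zero⟩)
      · exact h.out h1 squarefree_one hd0 h8 h2 (one_dvd_prime M) p hpM

theorem LD.d2 (h : LD M L A B) : Gz (-2 * (2 * B - A)) (A ^ 2) = GB M (in2 L) := by
  ext d
  constructor
  · rintro ⟨h1, h2, h3⟩
    obtain ⟨k1, k2, k3, k4⟩ := h.dd h1 d h1 (by
        push_cast at h2
        obtain ⟨c1, c2, c3⟩ := castne (K := ℝ) h
        exact (loc3_iff h1.ne_zero).2 ((dtc2 sq_real c1 c2 c3 h1.ne_zero).1 h2)) (by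
        intro p _
        have := h3 p
        push_cast at this
        obtain ⟨c1, c2, c3⟩ := castne (K := ℚ_[p]) h
        exact (loc3_iff h1.ne_zero).2 ((dtc2 (sq_padic p) c1 c2 c3 h1.ne_zero).1 this))
    exact ⟨⟨h1, k3, fun p hp => k4 p hp⟩, k1, k2⟩
  · rintro ⟨⟨h1, h2, h3⟩, hd0, h8⟩
    refine ⟨h1, ?_, fun p hp => ?_⟩
    · push_cast
      obtain ⟨c1, c2, c3⟩ := castne (K := ℝ) h
      rw [dtc2 sq_real c1 c2 c3 h1.ne_zero, ← loc3_iff h1.ne_zero]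
      exact h.real d d h1.ne_zero hd0
    · push_cast
      obtain ⟨c1, c2, c3⟩ := castne (K := ℚ_[p]) h
      rw [dtc2 (sq_padic p) c1 c2 c3 h1.ne_zero, ← loc3_iff h1.ne_zero]
      by_cases hpM : p ∣ M
      · exact (h.loc p hpM d d h1 h1).2
          (h3 p (Nat.mem_primeFactors.2 ⟨hp.out, hpM, h.sq.ne_zero⟩))
      · exact h.out h1 h1 hd0 h8 h2 h2 p hpM

end

end Pool.Agent.Q284.ISO
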