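import Pool.Agent.Q284.ISO.Fam
import Pool.Agent.Y535.RZ.SURJ
import Pool.Agent.Y535.RZ.SEL17
import Pool.Agent.Y105.RZ.Goods
import Pool.Agent.Y655.RZ.Par

/-!
# The local data of the curves of the triples
-/

set_option autoImplicit false

namespace Pool.Agent.Q284.ISO

open Finset Pool.Agent.W262.RK Pool.Agent.W307.RT Pool.Agent.W307.RS Pool.Agent.W307.SE
  Pool.Agent.W307.FK Pool.Agent.W214.RK2 Pool.Agent.Y667.RP Pool.Agent.Y667.RZ
  Pool.Agent.Y535.RZ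

open Pool.Agent.W405.SE (even_val not_dvd goodp_of)

/-- the hypotheses on the triple -/
structure HP (s : Fin 3 → ℕ) : Prop where
  sq : Squarefree (∏ j, s j)
  odd : Odd (∏ j, s j)
  big : ∀ p : ℕ, p.Prime → p ∣ ∏ j, s j → 17 < p
  rel : (s 0 : ℤ) - s 1 = 32 * s 2
  m0 : s 0 % 8 = 1
  m1 : s 1 % 8 = 1
  n0 : s 0 % 17 = 1
  n1 : s 1 % 17 = 15
  hs : Pool.Agent.Y655.RZ.HS (∏ j, s j)

lemma locLR' {a b : ℤ} (c : Fin 3) (κ : ℤ) (p : ℕ) [hp : Fact p.Prime] (hp2 : p ≠ 2)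
    (hκ : ¬ (p : ℤ) ∣ κ) (hL : LocH c.castSucc (fun _ => κ) false p a b) {d1 d2 : ℤ}
    (h1 : Squarefree d1) (h2 : Squarefree d2) (hd : Loc ℚ_[p] a b d1 d2) :
    LR c (sg0 p κ) (dv p d1) (dv p d2) (sgn p d1) (sgn p d2) := by
  obtain ⟨x, y, hy, hxy, s1, s2⟩ := hd
  have h := loclp_of Pool.Agent.W407.SE.ratp c.castSucc (fun _ => κ) false p a b hp2
    (fun _ => hκ) hL x y hy hxy d1 d2 h1 h2 s1 s2
  unfold LL at h
  unfold LR
  fin_cases c
  · simpa using h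
  · simpa using h
  · simpa using h

section

variable {s : Fin 3 → ℕ} {D : ℕ} (h : Dat s D)
include h

lemma dloc0 {p : ℕ} [hp : Fact p.Prime] {d1 d2 : ℤ} (q1 : Squarefree d1) (q2 : Squarefree d2)
    (hd : Loc ℚ_[p] ((D : ℤ) * s 0) ((D : ℤ) * s 1) d1 d2) (hpA : p ∣ s 0) :
    LR 0 (sg0 p (-((D : ℤ) * s 1))) (dv p d1) (dv p d2) (sgn p d1) (sgn p d2) := by
  have hD := h.hD hp.out hpA
  have h1 : ¬ p ∣ s 1 := cop_nd hp.out h.cop01 hpA
  have h2 : ¬ (p : ℤ) ∣ -((D : ℤ) * s 1) := by rw [dvd_neg, dvd_D hp.out hD]; exact h1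
  refine locLR' 0 _ p (h.ne2 hpA) h2 ?_ q1 q2 hd
  unfold LocH
  rw [if_pos (by rfl)]
  exact ⟨(dvd_D hp.out hD).2 hpA, nsq_D hp.out hD (h.sqj 0), fun h => h1 ((dvd_D hp.out hD).1 h),
    jac_self hp.out h2⟩

lemma dloc1 {p : ℕ} [hp : Fact p.Prime] {d1 d2 : ℤ} (q1 : Squarefree d1) (q2 : Squarefree d2)
    (hd : Loc ℚ_[p] ((D : ℤ) * s 0) ((D : ℤ) * s 1) d1 d2) (hpB : p ∣ s 1) :
    LR 1 (sg0 p (-((D : ℤ) * s 0))) (dv p d1) (dv p d2) (sgn p d1) (sgn p d2) := by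
  have hD := h.hD hp.out hpB
  have h1 : ¬ p ∣ s 0 := cop_nd hp.out h.cop01.symm hpB
  have h2 : ¬ (p : ℤ) ∣ -((D : ℤ) * s 0) := by rw [dvd_neg, dvd_D hp.out hD]; exact h1
  refine locLR' 1 _ p (h.ne2 hpB) h2 ?_ q1 q2 hd
  unfold LocH
  rw [if_neg (by decide), if_pos (by rfl)]
  exact ⟨(dvd_D hp.out hD).2 hpB, nsq_D hp.out hD (h.sqj 1), fun h => h1 ((dvd_D hp.out hD).1 h),
    jac_self hp.out h2⟩

lemma dloc2 {p : ℕ} [hp : Fact p.Prime] {d1 d2 : ℤ} (q1 : Squarefree d1) (q2 : Squarefree d2)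
    (hd : Loc ℚ_[p] ((D : ℤ) * s 0) ((D : ℤ) * s 1) d1 d2) (hpC : p ∣ s 2) :
    LR 2 (sg0 p ((D : ℤ) * s 0)) (dv p d1) (dv p d2) (sgn p d1) (sgn p d2) := by
  have hD := h.hD hp.out hpC
  have hp2 := h.ne2 hpC
  have h1 : ¬ p ∣ s 0 := fun h' => cop_nd hp.out h.cop012.symm hpC (h'.mul_right _)
  have h2 : ¬ (p : ℤ) ∣ (D : ℤ) * s 0 := by rw [dvd_D hp.out hD]; exact h1
  refine locLR' 2 _ p hp2 h2 ?_ q1 q2 hd
  unfold LocH
  rw [if_neg (by decide), if_neg (by decide), if_pos (by rfl)]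
  refine ⟨(h.dvdC hp.out hp2 hD).2 hpC, ?_, h2, jac_self hp.out h2⟩
  intro h'
  rw [h.dif'] at h'
  have h3 : p ^ 2 ∣ 32 * (D * s 2) := by exact_mod_cast h'
  have h4 : (p ^ 2).Coprime 32 := by
    have : p.Coprime 2 := (Nat.coprime_primes hp.out Nat.prime_two).2 hp2
    have h5 : (p ^ 2).Coprime (2 ^ 5) := Nat.Coprime.pow 2 5 this
    exact h5
  have h5 : (p ^ 2).Coprime D :=
    Nat.Coprime.pow_left 2 ((Nat.Prime.coprime_iff_not_dvd hp.out).2 hD)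
  exact nsq hp.out (h.sqj 2) (h5.dvd_of_dvd_mul_left (h4.dvd_of_dvd_mul_left h3))

lemma dlf {p : ℕ} [hp : Fact p.Prime] {d1 d2 : ℤ} (q1 : Squarefree d1) (q2 : Squarefree d2)
    (hd : Loc ℚ_[p] ((D : ℤ) * s 0) ((D : ℤ) * s 1) d1 d2) (E : Finset ℕ)
    (hE0 : p ∣ s 0 → (p ∈ E ↔ jacobiSym (-((D : ℤ) * s 1)) p = -1))
    (hE1 : p ∣ s 1 → (p ∈ E ↔ jacobiSym (-((D : ℤ) * s 0)) p = -1))
    (hE2 : p ∣ s 2 → (p ∈ E ↔ jacobiSym ((D : ℤ) * s 0) p = -1)) :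
    LF s E p (dv p d1) (dv p d2) (sgn p d1) (sgn p d2) := by
  intro j hj
  have hj3 : j = 0 ∨ j = 1 ∨ j = 2 := by fin_cases j <;> simp
  rcases hj3 with rfl | rfl | rfl
  · have : decide (p ∈ E) = sg0 p (-((D : ℤ) * s 1)) := by
      unfold sg0
      rw [decide_eq_decide]
      exact hE0 hj
    rw [this]
    exact dloc0 h q1 q2 hd hj
  · have : decide (p ∈ E) = sg0 p (-((D : ℤ) * s 0)) := by
      unfold sg0
      rw [decide_eq_decide]
      exact hE1 hj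
    rw [this]
    exact dloc1 h q1 q2 hd hj
  · have : decide (p ∈ E) = sg0 p ((D : ℤ) * s 0) := by
      unfold sg0
      rw [decide_eq_decide]
      exact hE2 hj
    rw [this]
    exact dloc2 h q1 q2 hd hj

/-- good reduction -/
lemma dgood {q : ℕ} [hq : Fact q.Prime] (hq2 : q ≠ 2) (hcon : ¬ q ∣ D * ∏ j, s j) :
    ¬ (q : ℤ) ∣ 2 * ((D : ℤ) * s 0) * ((D : ℤ) * s 1) *
      ((D : ℤ) * s 0 - (D : ℤ) * s 1) := by
  have hD : ¬ q ∣ D := fun h' => hcon (h'.mul_right _)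
  have hj : ∀ j, ¬ q ∣ s j := fun j h' => hcon ((h'.trans (h.sj_dvd j)).mul_left _)
  have hqi := Nat.prime_iff_prime_int.1 hq.out
  intro h'
  rcases hqi.dvd_or_dvd h' with h' | h'
  · rcases hqi.dvd_or_dvd h' with h' | h'
    · rcases hqi.dvd_or_dvd h' with h' | h'
      · have : q ∣ 2 := by exact_mod_cast h'
        exact hq2 ((Nat.prime_dvd_prime_iff_eq hq.out Nat.prime_two).1 this)
      · exact hj 0 ((dvd_D hq.out hD).1 h')
    · exact hj 1 ((dvd_D hq.out hD).1 h')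
  · exact hj 2 ((h.dvdC hq.out hq2 hD).1 h')

/-- the local data, except at the primes of `M` -/
lemma mkLD (hD8 : D % 8 = 1) (h0 : s 0 % 8 = 1) (h1 : s 1 % 8 = 1) (hDs : Squarefree D)
    (L : ℕ → Bool → Bool → Bool → Bool → Prop)
    (hloc : ∀ (p : ℕ) [Fact p.Prime], p ∣ D * ∏ j, s j → ∀ d1 d2 : ℤ, Squarefree d1 →
      Squarefree d2 → (Loc ℚ_[p] ((D : ℤ) * s 0) ((D : ℤ) * s 1) d1 d2 ↔
        L p (dv p d1) (dv p d2) (sgn p d1) (sgn p d2))) :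
    LD (D * ∏ j, s j) L ((D : ℤ) * s 0) ((D : ℤ) * s 1) := by
  have hD0 : (0 : ℤ) < D := by exact_mod_cast h.D0
  have p0 : (0 : ℤ) < s 0 := by exact_mod_cast h.pos 0
  have p1 : (0 : ℤ) < s 1 := by exact_mod_cast h.pos 1
  have p2 : (0 : ℤ) < s 2 := by exact_mod_cast h.pos 2
  have hA : (0 : ℤ) < (D : ℤ) * s 0 := by positivity
  have hB : (0 : ℤ) < (D : ℤ) * s 1 := by positivity
  have hC0 : (0 : ℤ) < (D : ℤ) * s 2 := by positivity
  have hdif := h.dif'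
  have hBA : (D : ℤ) * s 1 < (D : ℤ) * s 0 := by linarith
  have m8 : ∀ x : ℕ, x % 8 = 1 → ((D : ℤ) * (x : ℤ)) % 8 = 1 := by
    intro x hx
    have : (D * x) % 8 = 1 := by rw [Nat.mul_mod, hD8, hx]
    have h2 : ((D * x : ℕ) : ℤ) % 8 = 1 := by omega
    rw [← h2]
    push_cast
    rfl
  have hDo : Odd D := by
    rw [Nat.odd_iff]; omega
  refine ⟨?_, hDo.mul h.odd, hA.ne', hB.ne', hBA.ne', hloc, ?_, ?_, ?_, ?_, ?_⟩
  · rw [Nat.squarefree_mul_iff]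
    exact ⟨h.co.symm, hDs, h.sq⟩
  · intro d1 d2 h2 h3
    exact pt_real hB hBA h3 h2
  · intro x y hy hxy
    by_contra hcon
    push Not at hcon
    have hy2 : 0 < y ^ 2 := by positivity
    rw [hxy] at hy2
    have ha' : (0 : ℝ) < (((D : ℤ) * s 0 : ℤ) : ℝ) := by exact_mod_cast hA
    have hb' : (0 : ℝ) < (((D : ℤ) * s 1 : ℤ) : ℝ) := by exact_mod_cast hB
    have h3 : 0 ≤ (x - (((D : ℤ) * s 0 : ℤ) : ℝ)) * (x - (((D : ℤ) * s 1 : ℤ) : ℝ)) :=
      mul_nonneg_of_nonpos_of_nonpos (by linarith) (by linarith)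
    have h4 : x * ((x - (((D : ℤ) * s 0 : ℤ) : ℝ)) * (x - (((D : ℤ) * s 1 : ℤ) : ℝ))) ≤ 0 :=
      mul_nonpos_of_nonpos_of_nonneg hcon h3
    linarith [h4, hy2, mul_assoc x (x - (((D : ℤ) * s 0 : ℤ) : ℝ)) (x - (((D : ℤ) * s 1 : ℤ) : ℝ))]
  · intro d1 d2 q2 h8
    have hodd : ((D : ℤ) * (s 2 : ℤ)) % 2 = 1 := by
      have o2 : Odd (s 2) := Odd.of_dvd_nat h.odd (h.sj_dvd 2)
      have h3 := hDo.mul o2
      rw [Nat.odd_iff] at h3
      have h4 : ((D * s 2 : ℕ) : ℤ) % 2 = 1 := by omega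
      rw [← h4]
      push_cast
      rfl
    exact pt_two (m8 _ h0) (m8 _ h1) hdif hodd h8 q2
  · intro x y hy hxy
    exact two_sq (m8 _ h0) (by rw [hdif]; exact dvd_mul_right _ _) hy hxy
  · intro q hq hq2 hqM d1 d2 q1 q2
    have hg := dgood h hq2 hqM
    constructor
    · intro h5
      exact goodp_of Pool.Agent.W407.SE.ratp q _ _ d1 d2 hg q1 q2 h5
    · rintro ⟨k1, k2⟩
      exact Pool.Agent.Y105.RZ.GOODS q _ _ d1 d2 hg k1 k2

end

theorem HP.ld1 {s : Fin 3 → ℕ} (h : HP s) :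
    LD (∏ j, s j) (LF s (sgF (s 0) (s 1) (∏ j, s j))) (s 0) (s 1) := by
  have hd1 : Dat s 1 := ⟨h.sq, h.odd, Nat.coprime_one_right _, h.rel, one_pos⟩
  have key := mkLD hd1 (by norm_num) h.m0 h.m1 squarefree_one
    (LF s (sgF (s 0) (s 1) (∏ j, s j))) (by
      intro p hp hpM d1 d2 q1 q2
      rw [one_mul] at hpM
      obtain ⟨e0, e1, e2⟩ := hd1.memE hp.out hpM
      constructor
      · intro h5
        refine dlf hd1 q1 q2 h5 _ ?_ ?_ ?_
        · intro h; rw [e0 h, Nat.cast_one, one_mul]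
        · intro h; rw [e1 h, Nat.cast_one, one_mul]
        · intro h; rw [e2 h, Nat.cast_one, one_mul]
      · intro h5
        exact hd1.pts (d := (d1, d2)) (by have := h.big p hp.out hpM; omega) hpM q1 q2
          (sgF (s 0) (s 1) (∏ j, s j)) h5
          (by intro h; rw [e0 h, Nat.cast_one, one_mul])
          (by intro h; rw [e1 h, Nat.cast_one, one_mul])
          (by intro h; rw [e2 h, Nat.cast_one, one_mul]))
  rw [one_mul, Nat.cast_one, one_mul, one_mul] at key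
  exact key

theorem HP.ld17 {s : Fin 3 → ℕ} (h : HP s) :
    LD (17 * ∏ j, s j) (L17 s (sgF (s 0) (s 1) (∏ j, s j))) (17 * (s 0 : ℤ))
      (17 * (s 1 : ℤ)) := by
  have hp17 : Nat.Prime 17 := by norm_num
  have h17 : ¬ 17 ∣ ∏ j, s j := fun h' => lt_irrefl _ (h.big 17 hp17 h')
  have hd17 : Dat s 17 := ⟨h.sq, h.odd, ((Nat.Prime.coprime_iff_not_dvd hp17).2 h17).symm, h.rel,
    by norm_num⟩
  refine mkLD hd17 (by norm_num) h.m0 h.m1 hp17.prime.irreducible.squarefree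
    (L17 s (sgF (s 0) (s 1) (∏ j, s j))) ?_
  intro p hp hpM d1 d2 q1 q2
  by_cases hp17' : p = 17
  · subst hp17'
    unfold L17
    rw [if_pos rfl]
    constructor
    · rintro ⟨x, y, hy, hxy, s1, s2⟩
      have hLL := loclp_of Pool.Agent.W407.SE.ratp 3 ![1, 1, 3] false 17 _ _ (by norm_num)
        ?_ ?_ x y hy hxy d1 d2 q1 q2 s1 s2
      · unfold LL at hLL
        rw [if_neg (by decide), if_neg (by decide), if_neg (by decide)] at hLL
        exact ll17 _ _ _ _ hLL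
      · intro k
        fin_cases k <;> norm_num
      · unfold LocH
        rw [if_neg (by decide), if_neg (by decide), if_neg (by decide)]
        exact loch17 _ _ h.n0 h.n1 (fun h' => h17 (h'.trans (hd17.sj_dvd 0)))
          (fun h' => h17 (h'.trans (hd17.sj_dvd 1)))
    · rintro ⟨k1, k2⟩
      have n0 := h.n0
      have n1 := h.n1
      exact pt17 (by omega) (by omega) q1 q2 k1 k2
  · have hpP : p ∣ ∏ j, s j := by
      rcases (hp.out.dvd_mul).1 hpM with h' | h'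
      · exact absurd ((Nat.prime_dvd_prime_iff_eq hp.out hp17).1 h') hp17'
      · exact h'
    have hpf : p ∈ (∏ j, s j).primeFactors := Nat.mem_primeFactors.2 ⟨hp.out, hpP, h.sq.ne_zero⟩
    obtain ⟨e0, e1, e2⟩ := hd17.memE hp.out hpP
    have htw : p ∈ tw (∏ j, s j) (sgF (s 0) (s 1) (∏ j, s j)) ↔
        ¬ (p ∈ sgF (s 0) (s 1) (∏ j, s j) ↔ jacobiSym 17 p = -1) := by
      unfold tw
      rw [mem_filter]
      exact and_iff_right hpf
    have g0 : p ∣ s 0 → (p ∈ tw (∏ j, s j) (sgF (s 0) (s 1) (∏ j, s j)) ↔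
        jacobiSym (-(((17 : ℕ) : ℤ) * s 1)) p = -1) := by
      intro h'
      rw [htw, e0 h', ← jac_tw hp.out hp17']
      · push_cast
        rw [mul_neg]
      · rw [dvd_neg, Int.natCast_dvd_natCast]
        exact cop_nd hp.out hd17.cop01 h'
    have g1 : p ∣ s 1 → (p ∈ tw (∏ j, s j) (sgF (s 0) (s 1) (∏ j, s j)) ↔
        jacobiSym (-(((17 : ℕ) : ℤ) * s 0)) p = -1) := by
      intro h'
      rw [htw, e1 h', ← jac_tw hp.out hp17']
      · push_cast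
        rw [mul_neg]
      · rw [dvd_neg, Int.natCast_dvd_natCast]
        exact cop_nd hp.out hd17.cop01.symm h'
    have g2 : p ∣ s 2 → (p ∈ tw (∏ j, s j) (sgF (s 0) (s 1) (∏ j, s j)) ↔
        jacobiSym (((17 : ℕ) : ℤ) * s 0) p = -1) := by
      intro h'
      rw [htw, e2 h', ← jac_tw hp.out hp17']
      · push_cast
        rfl
      · rw [Int.natCast_dvd_natCast]
        exact fun h'' => cop_nd hp.out hd17.cop012.symm h' (h''.mul_right _)
    unfold L17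
    rw [if_neg hp17']
    constructor
    · intro h5
      exact dlf hd17 q1 q2 h5 _ g0 g1 g2
    · intro h5
      exact hd17.pts (d := (d1, d2)) (by have := h.big p hp.out hpP; omega) hpP q1 q2 _ h5 g0 g1 g2

end Pool.Agent.Q284.ISO
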