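import Pool.Agent.Q284.ISO.Asm

/-!
# Lower bounds for the Selmer groups of the isogenies
-/

set_option autoImplicit false

namespace Pool.Agent.Q284.ISO

open Finset Pool.Agent.W262.RK Pool.Agent.W307.RT Pool.Agent.W307.RS Pool.Agent.W307.SE
  Pool.Agent.W307.FK Pool.Agent.Y667.RP Pool.Agent.Y667.RZ Pool.Agent.Y655.RZ
  Pool.Agent.Y667.MT Pool.Agent.Y285.RP

/-- the trivial conditions on the second component, the first component is trivial -/
def P0 (_ : ℕ) (v h : Bool) : Prop := v = false ∧ h = false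

lemma xcP0 (p : ℕ) : XC2 (P0 p) := by
  refine ⟨⟨rfl, rfl⟩, ?_⟩
  rintro v x v' x' ⟨rfl, rfl⟩ ⟨rfl, rfl⟩
  exact ⟨rfl, rfl⟩

lemma xcT (p : ℕ) : XC2 ((fun _ _ _ => True : ℕ → Bool → Bool → Prop) p) :=
  ⟨trivial, fun _ _ _ _ _ _ => trivial⟩

lemma GB_P0 {M : ℕ} (hMo : Odd M) (hS : HS M) : GB M P0 = {1} := by
  ext x
  rw [Set.mem_singleton_iff]
  constructor
  · rintro ⟨⟨h1, h2, h3⟩, h4, h5⟩
    have hx : (x, (1 : ℤ)) ∈ VA M := by
      refine ⟨h1, squarefree_one, h4, h5, ?_, one_dvd_prime M⟩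
      intro q hq hd
      rcases (hq.dvd_mul).1 (h2 q hq hd) with h' | h'
      · exfalso
        have h9 : q = 2 := (Nat.prime_dvd_prime_iff_eq hq Nat.prime_two).1 h'
        subst h9
        have : (2 : ℤ) ∣ x := by exact_mod_cast hd
        omega
      · exact h'
    have hker : Ph M.primeFactors (x, (1 : ℤ)) = 0 := by
      funext p
      have hp := Nat.prime_of_mem_primeFactors p.2
      obtain ⟨k1, k2⟩ := h3 p p.2
      show toX (dv p x) (dv p 1) (sgn p x) (sgn p 1) = 0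
      rw [dv_one hp, sgn_one' hp, k1, k2]
      rfl
    have := Ph_ker hMo hS hx hker
    rw [Prod.mk.injEq] at this
    exact this.1
  · rintro rfl
    refine ⟨⟨squarefree_one, one_dvd_prime M, fun p hp => ?_⟩, one_pos, by norm_num⟩
    have hpp := Nat.prime_of_mem_primeFactors hp
    exact ⟨dv_one hpp, sgn_one' hpp⟩

set_option maxRecDepth 100000 in
lemma cardP : Fintype.card {x : XX //
    LX (fun v _ h _ => (v = false ∧ h = false) ∧ True) x} = 4 := by decide

theorem low_GA {M : ℕ} (hM : Squarefree M) (hMo : Odd M) (hS : HS M) (Q : ℕ → Bool → Bool → Prop)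
    (hQ : ∀ p, XC2 (Q p)) (k : ℕ → ℕ) (hk : ∀ p ∈ M.primeFactors, k p ≤ 2 ∧
      Nat.card {x : XX // LX (fun v w h g => (v = false ∧ h = false) ∧ Q p w g) x} = 2 ^ (2 - k p))
    {f : ℕ} (hf : (GA M Q).ncard = 2 ^ f) :
    M.primeFactors.card + 2 ≤ f + ∑ p ∈ M.primeFactors, k p := by
  obtain ⟨W0, hW0⟩ : ∃ W0, W0 = WL M.primeFactors (LPQ P0 (fun _ _ _ => True))
    (xcLPQ xcP0 xcT) := ⟨_, rfl⟩
  obtain ⟨W1, hW1⟩ : ∃ W1, W1 = WL M.primeFactors (LPQ P0 Q) (xcLPQ xcP0 hQ) := ⟨_, rfl⟩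
  have f0 : Module.finrank (ZMod 2) W0 = 2 * M.primeFactors.card := by
    apply finrank_of_card
    rw [hW0, card_WL, prod_congr rfl (g := fun _ => 4), prod_const, pow_mul]
    · norm_num
    intro p hp
    have h4 := cardkey _ _ cardP
    exact h4
  have f1 : Module.finrank (ZMod 2) W1 = ∑ p ∈ M.primeFactors, (2 - k p) := by
    apply finrank_of_card
    rw [hW1, card_WL, ← prod_pow_eq_pow_sum]
    apply prod_congr rfl
    intro p hp
    exact (hk p hp).2
  have f2 : Module.finrank (ZMod 2) (AM M ⊓ W0 : Submodule (ZMod 2) (M.primeFactors → XX)) =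
      M.primeFactors.card + 2 := by
    apply finrank_of_card
    rw [hW0, card_inf hMo hS, VG_prod hMo, Set.ncard_prod, GB_P0 hMo hS, Set.ncard_singleton,
      one_mul, card_GA hM hMo]
  have f3 : Module.finrank (ZMod 2) (AM M ⊓ W1 : Submodule (ZMod 2) (M.primeFactors → XX)) =
      f := by
    apply finrank_of_card
    rw [hW1, card_inf hMo hS, VG_prod hMo, Set.ncard_prod, GB_P0 hMo hS, Set.ncard_singleton,
      one_mul, hf]
  have hle : W1 ≤ W0 := by
    rw [hW0, hW1]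
    intro x hx p
    exact ⟨(hx p).1, trivial⟩
  have f4 := Submodule.finrank_sup_add_finrank_inf_eq (AM M ⊓ W0 :
    Submodule (ZMod 2) (M.primeFactors → XX)) W1
  have f5 : Module.finrank (ZMod 2) ((AM M ⊓ W0) ⊔ W1 :
      Submodule (ZMod 2) (M.primeFactors → XX)) ≤ 2 * M.primeFactors.card := by
    rw [← f0]
    exact Submodule.finrank_mono (sup_le inf_le_right hle)
  have f6 : Module.finrank (ZMod 2) ((AM M ⊓ W0) ⊓ W1 :
      Submodule (ZMod 2) (M.primeFactors → XX)) ≤ f := by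
    rw [← f3]
    exact Submodule.finrank_mono (le_inf (inf_le_left.trans inf_le_left) inf_le_right)
  have f7 : ∑ p ∈ M.primeFactors, (2 - k p) + ∑ p ∈ M.primeFactors, k p =
      2 * M.primeFactors.card := by
    rw [← sum_add_distrib, sum_congr rfl (g := fun _ => 2), sum_const, smul_eq_mul, mul_comm]
    intro p hp
    have := (hk p hp).1
    omega
  rw [f1, f2] at f4
  omega

set_option maxRecDepth 100000 in
lemma cardq : ∀ (neg : Bool) (i j : Fin 3), Fintype.card {x : XX //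
    LX (fun v w h g => (v = false ∧ h = false) ∧ QQc i (LR j neg) w g) x} =
      2 ^ (2 - dd i (decide (j = jj i)) neg) := by decide

set_option maxRecDepth 100000 in
lemma cardq1 : ∀ (i : Fin 3), Fintype.card {x : XX //
    LX (fun v w h g => (v = false ∧ h = false) ∧ QQc i L1 w g) x} =
      2 ^ (2 - (if i = 0 then 1 else 0)) := by decide

lemma dd_le : ∀ (i : Fin 3) (a b : Bool), dd i a b ≤ 2 := by decide

lemma dd_le' : ∀ (i : Fin 3) (a b : Bool), i ≠ 0 → dd i a b ≤ (if a = true then 2 else 0) := by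
  decide

section

variable {s : Fin 3 → ℕ}

/-- the sum over the primes of one class -/
lemma sum_dd (h : HP s) (E : Finset ℕ) {i : Fin 3} (hi : i ≠ 0) :
    ∑ p ∈ (∏ j, s j).primeFactors, dd i (decide (p ∣ s (jj i))) (decide (p ∈ E)) ≤
      2 * (s (jj i)).primeFactors.card := by
  have h1 : ∀ p ∈ (∏ j, s j).primeFactors, dd i (decide (p ∣ s (jj i))) (decide (p ∈ E)) ≤
      (if p ∣ s (jj i) then 2 else 0) := by
    intro p _
    have := dd_le' i (decide (p ∣ s (jj i))) (decide (p ∈ E)) hi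
    simpa using this
  refine (sum_le_sum h1).trans ?_
  rw [← sum_filter, sum_const, smul_eq_mul, mul_comm]
  apply Nat.mul_le_mul_left
  apply card_le_card
  intro p hp
  rw [mem_filter, Nat.mem_primeFactors] at hp
  have hj : s (jj i) ≠ 0 := (h.sq.squarefree_of_dvd (dvd_P (jj i))).ne_zero
  exact Nat.mem_primeFactors.2 ⟨hp.1.1, hp.2, hj⟩

lemma HP.low1 (h : HP s) {i : Fin 3} (hi : i ≠ 0) {f : ℕ}
    (hf : (GA (∏ j, s j) (fun p => QQc i (LF s (sgF (s 0) (s 1) (∏ j, s j)) p))).ncard = 2 ^ f) :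
    (∏ j, s j).primeFactors.card + 2 ≤ f + 2 * (s (jj i)).primeFactors.card := by
  have h1 := low_GA h.sq h.odd h.hs (fun p => QQc i (LF s (sgF (s 0) (s 1) (∏ j, s j)) p))
    (fun p => xcQQ i (xcLF s _ p))
    (fun p => dd i (decide (p ∣ s (jj i))) (decide (p ∈ sgF (s 0) (s 1) (∏ j, s j)))) (by
      intro p hp
      refine ⟨dd_le _ _ _, ?_⟩
      obtain ⟨j, hj, hl⟩ := ex_cls h.sq hp
      have e : LF s (sgF (s 0) (s 1) (∏ j, s j)) p =
          LR j (decide (p ∈ sgF (s 0) (s 1) (∏ j, s j))) := by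
        funext v w x g
        exact propext (LF_iff h.sq (Nat.prime_of_mem_primeFactors hp) hj)
      simp only [e, hl]
      have := cardkey _ _ (cardq (decide (p ∈ sgF (s 0) (s 1) (∏ j, s j))) i j)
      rwa [show decide (j = jj i) = decide (jj i = j) from by
        rw [decide_eq_decide]; exact eq_comm] at this) hf
  have h2 := sum_dd h (sgF (s 0) (s 1) (∏ j, s j)) hi
  omega

lemma HP.low17 (h : HP s) {i : Fin 3} (hi : i ≠ 0) {f : ℕ}
    (hf : (GA (17 * ∏ j, s j)
      (fun p => QQc i (L17 s (sgF (s 0) (s 1) (∏ j, s j)) p))).ncard = 2 ^ f) :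
    (∏ j, s j).primeFactors.card + 2 ≤ f + 2 * (s (jj i)).primeFactors.card := by
  have hld := h.ld17
  have hS : HS (17 * ∏ j, s j) := by
    intro σ hσ
    obtain ⟨p, hp, hd, hJ⟩ := h.hs σ hσ
    exact ⟨p, hp, hd.mul_left _, hJ⟩
  have hNc : (17 * ∏ j, s j).primeFactors = insert 17 (∏ j, s j).primeFactors :=
    pf17 h.sq.ne_zero
  have h17 : 17 ∉ (∏ j, s j).primeFactors := fun h' => h.n17 (Nat.dvd_of_mem_primeFactors h')
  obtain ⟨k, hk⟩ : ∃ k : ℕ → ℕ, k = fun p => if p = 17 then (if i = 0 then 1 else 0) else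
    dd i (decide (p ∣ s (jj i))) (decide (p ∈ tw (∏ j, s j) (sgF (s 0) (s 1) (∏ j, s j)))) :=
      ⟨_, rfl⟩
  have h1 := low_GA hld.sq hld.odd hS
    (fun p => QQc i (L17 s (sgF (s 0) (s 1) (∏ j, s j)) p))
    (fun p => xcQQ i (xcL17 s _ p)) k (by
      intro p hp
      rw [hNc, mem_insert] at hp
      by_cases hp17 : p = 17
      · subst hp17
        rw [hk]
        simp only [if_true, L17_17]
        exact ⟨by split_ifs <;> norm_num, cardkey _ _ (cardq1 i)⟩
      · have hp' := hp.resolve_left hp17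
        obtain ⟨j, hj, hl⟩ := ex_cls h.sq hp'
        have e : L17 s (sgF (s 0) (s 1) (∏ j, s j)) p =
            LR j (decide (p ∈ tw (∏ j, s j) (sgF (s 0) (s 1) (∏ j, s j)))) := by
          rw [L17_ne s _ hp17]
          funext v w x g
          exact propext (LF_iff h.sq (Nat.prime_of_mem_primeFactors hp') hj)
        rw [hk]
        simp only [if_neg hp17, e, hl]
        refine ⟨dd_le _ _ _, ?_⟩
        have := cardkey _ _ (cardq (decide (p ∈ tw (∏ j, s j) (sgF (s 0) (s 1) (∏ j, s j)))) i j)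
        rwa [show decide (j = jj i) = decide (jj i = j) from by
          rw [decide_eq_decide]; exact eq_comm] at this) hf
  have hsum : ∑ p ∈ (17 * ∏ j, s j).primeFactors, k p =
      ∑ p ∈ (∏ j, s j).primeFactors, (dd i (decide (p ∣ s (jj i)))
        (decide (p ∈ tw (∏ j, s j) (sgF (s 0) (s 1) (∏ j, s j))))) := by
    rw [hNc, sum_insert h17, hk]
    simp only [if_true, if_neg hi, zero_add]
    apply sum_congr rfl
    intro p hp
    rw [if_neg (by rintro rfl; exact h17 hp)]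
  have h2 := sum_dd h (tw (∏ j, s j) (sgF (s 0) (s 1) (∏ j, s j))) hi
  rw [hNc, card_insert_of_notMem h17, ← hNc, hsum] at h1
  omega

lemma HP.card_pf (h : HP s) : (∏ j, s j).primeFactors.card =
    (s 0).primeFactors.card + (s 1).primeFactors.card + (s 2).primeFactors.card := by
  have h1 := h.sq
  rw [prod3] at h1 ⊢
  rw [Nat.squarefree_mul_iff] at h1
  obtain ⟨h2, h3, h4⟩ := h1
  have h5 := h3
  rw [Nat.squarefree_mul_iff] at h5
  obtain ⟨h6, h7, h8⟩ := h5
  rw [Nat.primeFactors_mul h3.ne_zero h4.ne_zero,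
    card_union_of_disjoint h2.disjoint_primeFactors, Nat.primeFactors_mul h7.ne_zero h8.ne_zero,
    card_union_of_disjoint h6.disjoint_primeFactors]

end

/-- large values of the two exponents for a model -/
def Big (T : ℕ) (k : ℤ × ℤ) : Prop := ∃ α β : ℤ, (∃ C : WeierstrassCurve.VariableChange ℚ,
      C • (⟨0, 0, 0, (k.1 : ℚ), (k.2 : ℚ)⟩ : WeierstrassCurve ℚ) =
        ⟨0, (α : ℚ), 0, (β : ℚ), 0⟩) ∧ ∃ f1 f2 : ℕ, (F1 α β).ncard = 2 ^ f1 ∧
  (F1 (-2 * α) (α ^ 2 - 4 * β)).ncard = 2 ^ f2 ∧ T + 2 ≤ f1 + f2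

/-- the two models -/
lemma model_ex {A B k : ℤ} (hk : A + B = 3 * k) :
    (∃ C : WeierstrassCurve.VariableChange ℚ,
      C • (⟨0, 0, 0, ((cc A B k).1 : ℚ), ((cc A B k).2 : ℚ)⟩ : WeierstrassCurve ℚ) =
        ⟨0, ((2 * A - B : ℤ) : ℚ), 0, ((A * (A - B) : ℤ) : ℚ), 0⟩) ∧
    (∃ C : WeierstrassCurve.VariableChange ℚ,
      C • (⟨0, 0, 0, ((cc A B k).1 : ℚ), ((cc A B k).2 : ℚ)⟩ : WeierstrassCurve ℚ) =
        ⟨0, ((2 * B - A : ℤ) : ℚ), 0, ((B * (B - A) : ℤ) : ℚ), 0⟩) := by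
  have hkQ : (A : ℚ) + B = 3 * k := by exact_mod_cast hk
  constructor
  · refine ⟨⟨1, A - k, 0, 0⟩, ?_⟩
    rw [WeierstrassCurve.variableChange_def]
    unfold cc
    ext
    · simp
    · simp only [inv_one, Units.val_one]
      push_cast
      linear_combination hkQ
    · simp
    · simp only [inv_one, Units.val_one]
      push_cast
      linear_combination (2 * (A : ℚ)) * hkQ
    · simp only [inv_one, Units.val_one]
      push_cast
      linear_combination (((A : ℚ) - k) ^ 2 + 2 * ((A : ℚ) - k) * k) * hkQ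
  · refine ⟨⟨1, B - k, 0, 0⟩, ?_⟩
    rw [WeierstrassCurve.variableChange_def]
    unfold cc
    ext
    · simp
    · simp only [inv_one, Units.val_one]
      push_cast
      linear_combination hkQ
    · simp
    · simp only [inv_one, Units.val_one]
      push_cast
      linear_combination (2 * (B : ℚ)) * hkQ
    · simp only [inv_one, Units.val_one]
      push_cast
      linear_combination (((B : ℚ) - k) ^ 2 + 2 * ((B : ℚ) - k) * k) * hkQ

theorem LD.big {M : ℕ} {L : ℕ → Bool → Bool → Bool → Bool → Prop} {A B k : ℤ} (h : LD M L A B)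
    (hk : A + B = 3 * k) {T : ℕ}
    (hp : ∃ i : Fin 3, i ≠ 0 ∧ ∃ f1 f2 : ℕ, (GB M (fun p => PP i (L p))).ncard = 2 ^ f1 ∧
      (GA M (fun p => QQc i (L p))).ncard = 2 ^ f2 ∧ T + 2 ≤ f2) : Big T (cc A B k) := by
  obtain ⟨m1, m2⟩ := model_ex hk
  have hA := h.A0
  have hB := h.B0
  have hAB := sub_ne_zero.2 h.AB
  have hBA := sub_ne_zero.2 h.AB.symm
  obtain ⟨i, hi, f1, f2, k1, k2, k3⟩ := hp
  rcases fin3 i with rfl | rfl | rfl
  · exact absurd rfl hi
  · have g1 : (2 * A - B) ^ 2 - 4 * (A * (A - B)) = B ^ 2 := by ring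
    obtain ⟨e1, e2⟩ := F1_model (α := 2 * A - B) (β := A * (A - B)) one_ne_zero
      (mul_ne_zero hA hAB) (by rw [g1]; exact pow_ne_zero 2 hB) (by ring) (by ring)
    rw [g1, h.d1] at e2
    rw [h.s1] at e1
    refine ⟨_, _, m1, f2, f1, ?_, ?_, by omega⟩
    · rw [e1]; exact k2
    · rw [g1, e2]; exact k1
  · have g1 : (2 * B - A) ^ 2 - 4 * (B * (B - A)) = A ^ 2 := by ring
    obtain ⟨e1, e2⟩ := F1_model (α := 2 * B - A) (β := B * (B - A)) one_ne_zero
      (mul_ne_zero hB hBA) (by rw [g1]; exact pow_ne_zero 2 hA) (by ring) (by ring)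
    rw [g1, h.d2] at e2
    rw [h.s2] at e1
    refine ⟨_, _, m2, f2, f1, ?_, ?_, by omega⟩
    · rw [e1]; exact k2
    · rw [g1, e2]; exact k1

end Pool.Agent.Q284.ISO
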