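import Pool.Agent.Q284.ISO.Low
import Pool.Agent.Q284.ISO.Dens

/-!
# The theorem for a positive proportion of the curves, with a large Selmer rank
-/

set_option autoImplicit false

namespace Pool.Agent.Q284.ISO

open Finset Pool.Agent.W262.RK Pool.Agent.W307.RT Pool.Agent.W307.RS Pool.Agent.W307.SE
  Pool.Agent.W307.FK Pool.Agent.Y667.RP Pool.Agent.Y667.RZ Pool.Agent.Y667.MT
open Pool.Agent.Y285.RP Pool.Agent.Y285.RZ Pool.Agent.Y738.MT
open Pool.Agent.Y667.PA (TPR)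

/-- the third integer of the triple of a pair -/
def thd (t : ℕ × ℕ) : ℕ := (t.1 - t.2) / 32

open Classical in
/-- If every good pair for which the third integer has at least `T` prime factors gives a curve with
the property `P` (the curve of the pair or its twist by `17`), then a positive proportion of the
curves has the property `P`. -/
theorem transT (r T : ℕ) (P : ℤ × ℤ → Prop)
    (hT : ∀ (X : ℕ) (t : ℕ × ℕ), t ∈ Icc 1 X ×ˢ Icc 1 X → GoodR r X t →
      T ≤ (thd t).primeFactors.card →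
      P (cc (t.1 : ℤ) (t.2 : ℤ) (((t.1 + t.2) / 3 : ℕ) : ℤ)) ∨
      P (cc (17 * (t.1 : ℤ)) (17 * (t.2 : ℤ)) (17 * (((t.1 + t.2) / 3 : ℕ) : ℤ)))) :
    ∃ c : ℝ, 0 < c ∧ ∃ H0 : ℕ, ∀ H : ℕ, H0 ≤ H →
      c * ((Cv 2 H).card : ℝ) ≤ (((Cv 2 H).filter P).card : ℝ) := by
  obtain ⟨c, hc, X0, hX0⟩ := mainR r
  obtain ⟨Y0, hY0⟩ := few_omega T (half_pos hc)
  refine ⟨c / 320000, by positivity, 64 * (17 * max (max X0 Y0) 1) ^ 6, fun H hH => ?_⟩
  obtain ⟨X, hXX0, hX2, h3⟩ := Pool.Agent.Y890.RZ.size_exists (max X0 Y0) H hH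
  have h1 := hX0 X ((le_max_left _ _).trans hXX0)
  have h2 := hY0 X ((le_max_right _ _).trans hXX0)
  obtain ⟨F, hF⟩ : ∃ F, F = (Icc 1 X ×ˢ Icc 1 X).filter (GoodR r X) := ⟨_, rfl⟩
  rw [← hF] at h1
  have hmem : ∀ t ∈ F, t ∈ Icc 1 X ×ˢ Icc 1 X ∧ GoodR r X t := by
    intro t ht
    rw [hF, mem_filter] at ht
    exact ht
  -- the bad pairs
  obtain ⟨G, hG⟩ : ∃ G, G = F.filter (fun t => T ≤ (thd t).primeFactors.card) := ⟨_, rfl⟩
  have hthd : ∀ t ∈ F, t.1 = t.2 + 32 * thd t ∧ thd t ∈ Icc 1 X := by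
    intro t ht
    obtain ⟨g1, g2⟩ := hmem t ht
    rw [mem_product, mem_Icc, mem_Icc] at g1
    obtain ⟨-, -, -, -, -, -, -, s, e0, e1, hsq, -, -, heq, -⟩ := g2
    have h5 : s 2 ≠ 0 := by
      intro h0
      apply hsq.ne_zero
      exact prod_eq_zero (mem_univ 2) h0
    unfold thd
    rw [mem_Icc]
    omega
  have hbad : ((F.filter (fun t => ¬ T ≤ (thd t).primeFactors.card)).card : ℝ) ≤
      c / 2 * (X : ℝ) ^ 2 := by
    have h6 : (F.filter (fun t => ¬ T ≤ (thd t).primeFactors.card)).card ≤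
        (Icc 1 X ×ˢ ((Icc 1 X).filter (fun m => m.primeFactors.card < T))).card := by
      apply card_le_card_of_injOn (fun t => (t.2, thd t))
      · intro t ht
        rw [mem_coe, mem_filter] at ht
        obtain ⟨g1, g2⟩ := hmem t ht.1
        rw [mem_product] at g1
        rw [mem_coe, mem_product, mem_filter]
        exact ⟨g1.2, (hthd t ht.1).2, not_le.1 ht.2⟩
      · intro t ht t' ht' h
        rw [mem_coe, mem_filter] at ht ht'
        rw [Prod.mk.injEq] at h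
        have k1 := (hthd t ht.1).1
        have k2 := (hthd t' ht'.1).1
        rw [h.1, h.2] at k1
        exact Prod.ext (k1.trans k2.symm) h.1
    rw [card_product, Nat.card_Icc, Nat.add_sub_cancel] at h6
    have h7 : ((F.filter (fun t => ¬ T ≤ (thd t).primeFactors.card)).card : ℝ) ≤
        (X : ℝ) * (((Icc 1 X).filter (fun m => m.primeFactors.card < T)).card : ℝ) := by
      exact_mod_cast h6
    refine h7.trans ?_
    have h8 : (X : ℝ) * (((Icc 1 X).filter (fun m => m.primeFactors.card < T)).card : ℝ) ≤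
        (X : ℝ) * (c / 2 * X) := by gcongr
    refine h8.trans (le_of_eq ?_)
    ring
  have hsplit := card_filter_add_card_filter_not (s := F)
    (fun t => T ≤ (thd t).primeFactors.card)
  rw [← hG] at hsplit
  have hG1 : c / 2 * (X : ℝ) ^ 2 ≤ G.card := by
    have : (F.card : ℝ) = G.card + (F.filter (fun t => ¬ T ≤ (thd t).primeFactors.card)).card := by
      exact_mod_cast hsplit.symm
    linarith
  have hGm : ∀ t ∈ G, t ∈ F ∧ T ≤ (thd t).primeFactors.card := by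
    intro t ht
    rw [hG, mem_filter] at ht
    exact ht
  obtain ⟨p, hp⟩ : ∃ p : ℕ × ℕ → Prop, p = fun t =>
      P (cc (t.1 : ℤ) (t.2 : ℤ) (((t.1 + t.2) / 3 : ℕ) : ℤ)) := ⟨_, rfl⟩
  have a1 : (G.filter p).card ≤ ((Cv 2 H).filter P).card := by
    refine injN1 (N := 2 ^ (r + 2)) hX2 _ (fun t ht =>
      ⟨(hmem t (hGm t (mem_filter.1 ht).1).1).1,
        goodN_of (hmem t (hGm t (mem_filter.1 ht).1).1).2⟩) P fun t ht => ?_
    have := (mem_filter.1 ht).2
    rw [hp] at this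
    exact this
  have a2 : (G.filter (fun t => ¬ p t)).card ≤ ((Cv 2 H).filter P).card := by
    refine injN17 (N := 2 ^ (r + 2)) hX2 _ (fun t ht =>
      ⟨(hmem t (hGm t (mem_filter.1 ht).1).1).1,
        goodN_of (hmem t (hGm t (mem_filter.1 ht).1).1).2⟩) P fun t ht => ?_
    have h4 := (mem_filter.1 ht).2
    rw [hp] at h4
    obtain ⟨g0, g3⟩ := hGm t (mem_filter.1 ht).1
    obtain ⟨g1, g2⟩ := hmem t g0
    exact (hT X t g1 g2 g3).resolve_left h4
  have hsum := card_filter_add_card_filter_not (s := G) p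
  have k4 : G.card ≤ 2 * ((Cv 2 H).filter P).card := by omega
  have h3' : ((Cv 2 H).card : ℝ) ≤ 80000 * (X : ℝ) ^ 2 := by exact_mod_cast h3
  have h4' : (G.card : ℝ) ≤ 2 * (((Cv 2 H).filter P).card : ℝ) := by exact_mod_cast k4
  have h5 : c / 320000 * ((Cv 2 H).card : ℝ) ≤ c / 320000 * (80000 * (X : ℝ) ^ 2) := by gcongr
  have h7 : c / 320000 * (80000 * (X : ℝ) ^ 2) = c / 2 * (X : ℝ) ^ 2 / 2 := by ring
  linarith

lemma two_low {n n0 n1 n2 g1 g2 T : ℕ} (h : n = n0 + n1 + n2) (h1 : n + 2 ≤ g1 + 2 * n1)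
    (h2 : n + 2 ≤ g2 + 2 * n0) (hT : T ≤ n2) : T + 2 ≤ g1 ∨ T + 2 ≤ g2 := by
  omega

/-- both properties -/
def TT (r T : ℕ) (k : ℤ × ℤ) : Prop := TI r k ∧ Big T k

open Classical in
/-- **The theorem.** -/
theorem curvesTT (r T : ℕ) : ∃ c : ℝ, 0 < c ∧ ∃ H0 : ℕ, ∀ H : ℕ, H0 ≤ H →
    c * ((Cv 2 H).card : ℝ) ≤ (((Cv 2 H).filter (TT r T)).card : ℝ) := by
  refine transT r T (TT r T) fun X t ht h hω => ?_
  obtain ⟨s, hs, e0, e1, hkk, hcase⟩ := pair_hp ht h
  have hs2 : thd t = s 2 := by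
    have r0 := hs.rel
    unfold thd
    omega
  rw [hs2] at hω
  rcases hcase with ⟨h1, h2⟩ | ⟨h1, h2⟩
  · left
    refine ⟨⟨h1, fun α β hC => ?_⟩, ?_⟩
    · rw [← e0, ← e1] at hC
      exact (hs.ld1.par hkk hs.six1 α β hC).congr h2
    · rw [← e0, ← e1]
      apply hs.ld1.big hkk
      obtain ⟨f1, g1, k1, l1, -⟩ := hs.six1 1
      obtain ⟨f2, g2, k2, l2, -⟩ := hs.six1 2
      rcases two_low hs.card_pf (hs.low1 (i := 1) (by decide) l1)
        (hs.low1 (i := 2) (by decide) l2) hω with h3 | h3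
      · exact ⟨1, by decide, f1, g1, k1, l1, h3⟩
      · exact ⟨2, by decide, f2, g2, k2, l2, h3⟩
  · right
    refine ⟨⟨h1, fun α β hC => ?_⟩, ?_⟩
    · rw [← e0, ← e1] at hC
      exact (hs.ld17.par (by linarith) hs.six17 α β hC).congr h2
    · rw [← e0, ← e1]
      apply hs.ld17.big (by linarith)
      obtain ⟨f1, g1, k1, l1, -⟩ := hs.six17 1
      obtain ⟨f2, g2, k2, l2, -⟩ := hs.six17 2
      rcases two_low hs.card_pf (hs.low17 (i := 1) (by decide) l1)
        (hs.low17 (i := 2) (by decide) l2) hω with h3 | h3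
      · exact ⟨1, by decide, f1, g1, k1, l1, h3⟩
      · exact ⟨2, by decide, f2, g2, k2, l2, h3⟩

end Pool.Agent.Q284.ISO
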