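import Pool.Agent.Q284.ISO.Inst
import Pool.Agent.Y212.RZ.LAG

/-!
# The parity of the dimensions of the two Selmer groups of an isogeny
-/

set_option autoImplicit false

namespace Pool.Agent.Q284.ISO

open Finset Pool.Agent.W262.RK Pool.Agent.W307.RT Pool.Agent.W307.RS Pool.Agent.W307.SE
  Pool.Agent.W307.FK Pool.Agent.Y667.RP Pool.Agent.Y667.RZ Pool.Agent.Y655.RZ

open NumberTheorySymbols jacobiSym

/-- a subgroup -/
def XC2 (P : Bool → Bool → Prop) : Prop :=
  P false false ∧ ∀ v h v' h', P v h → P v' h' → P (xor v v') (xor h h')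

/-- product of a condition on the first and a condition on the second component -/
def LPQ (P Q : ℕ → Bool → Bool → Prop) (p : ℕ) (v w h g : Bool) : Prop := P p v h ∧ Q p w g

lemma xcLPQ {P Q : ℕ → Bool → Bool → Prop} (hP : ∀ p, XC2 (P p)) (hQ : ∀ p, XC2 (Q p)) (p : ℕ) :
    XC (LPQ P Q p) :=
  ⟨⟨(hP p).1, (hQ p).1⟩, fun _ _ _ _ _ _ _ _ k k' => ⟨(hP p).2 _ _ _ _ k.1 k'.1,
    (hQ p).2 _ _ _ _ k.2 k'.2⟩⟩

/-- the second component is trivial -/
def LU (_ : ℕ) (_v w _h g : Bool) : Prop := w = false ∧ g = false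

lemma xcLU (p : ℕ) : XC (LU p) := by
  refine ⟨⟨rfl, rfl⟩, ?_⟩
  rintro a b c d a' b' c' d' ⟨rfl, rfl⟩ ⟨rfl, rfl⟩
  exact ⟨rfl, rfl⟩

/-- dual subgroups at a prime, the first one of dimension `k` -/
structure Dl (e : Bool) (P Q : Bool → Bool → Prop) (k : ℕ) : Prop where
  iso : ∀ v h w g, P v h → Q w g → hb e v h w g = false
  card : Nat.card {x : XX // LX (fun v w h g => P v h ∧ Q w g) x} = 4
  card' : Nat.card {x : XX // LX (fun v w h g => (P v h ∧ Q w g) ∧ (w = false ∧ g = false)) x} =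
    2 ^ k

lemma VG_prod {M : ℕ} (_hMo : Odd M) (P Q : ℕ → Bool → Bool → Prop) :
    VG M (LPQ P Q) = GB M P ×ˢ GA M Q := by
  ext d
  constructor
  · rintro ⟨h1, h2, h3, h4, h5, h6, h7⟩
    exact ⟨⟨⟨h1, fun q hq h => (h5 q hq h).mul_left _, fun p hp => (h7 p hp).1⟩, h3, h4⟩,
      h2, h6, fun p hp => (h7 p hp).2⟩
  · rintro ⟨⟨⟨h1, h5, h7⟩, h3, h4⟩, h2, h6, h8⟩
    refine ⟨h1, h2, h3, h4, ?_, h6, fun p hp => ⟨h7 p hp, h8 p hp⟩⟩
    intro q hq h
    rcases (hq.dvd_mul).1 (h5 q hq h) with h' | h'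
    · exfalso
      have h9 : q = 2 := (Nat.prime_dvd_prime_iff_eq hq Nat.prime_two).1 h'
      subst h9
      have : (2 : ℤ) ∣ d.1 := by exact_mod_cast h
      omega
    · exact h'

/-- the number of the squarefree integers supported on `2 M` -/
lemma card_GA {M : ℕ} (hM : Squarefree M) (hMo : Odd M) :
    (GA M (fun _ _ _ => True)).ncard = 2 ^ (M.primeFactors.card + 2) := by
  classical
  have h2M : Squarefree (2 * M) := by
    rw [Nat.squarefree_mul ((Nat.coprime_two_left (n := M)).2 hMo)]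
    exact ⟨Nat.prime_two.prime.irreducible.squarefree, hM⟩
  have hpf : (2 * M).primeFactors.card = M.primeFactors.card + 1 := by
    rw [Nat.primeFactors_mul (by norm_num) hM.ne_zero, Nat.prime_two.primeFactors,
      card_union_of_disjoint, card_singleton, add_comm]
    rw [disjoint_singleton_left]
    intro h
    exact (Nat.not_even_iff_odd.2 hMo) (even_iff_two_dvd.2 (Nat.dvd_of_mem_primeFactors h))
  have hset : GA M (fun _ _ _ => True) =
      (((2 * M).divisors.image (fun n : ℕ => (n : ℤ))) ∪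
        ((2 * M).divisors.image (fun n : ℕ => -(n : ℤ))) : Finset ℤ) := by
    ext x
    rw [coe_union, Set.mem_union, mem_coe, mem_coe, mem_image, mem_image]
    constructor
    · rintro ⟨h1, h2, -⟩
      have h3 := natAbs_dvd h1 h2
      have h4 : x.natAbs ∈ (2 * M).divisors := Nat.mem_divisors.2 ⟨h3, h2M.ne_zero⟩
      rcases Int.natAbs_eq x with h | h
      · exact Or.inl ⟨_, h4, h.symm⟩
      · exact Or.inr ⟨_, h4, h.symm⟩
    · have key : ∀ n ∈ (2 * M).divisors, ∀ x : ℤ, x.natAbs = n →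
          x ∈ GA M (fun _ _ _ => True) := by
        intro n hn x hx
        have h1 := Nat.dvd_of_mem_divisors hn
        refine ⟨?_, ?_, fun _ _ => trivial⟩
        · rw [← Int.squarefree_natAbs, hx]
          exact h2M.squarefree_of_dvd h1
        · intro q _ hqx
          rw [← hx] at h1
          exact (Int.natCast_dvd.1 hqx).trans h1
      rintro (⟨n, hn, rfl⟩ | ⟨n, hn, rfl⟩)
      · exact key n hn _ (by simp)
      · exact key n hn _ (by simp)
  rw [hset, Set.ncard_coe_finset, card_union_of_disjoint, card_image_of_injective,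
    card_image_of_injective, card_div h2M, hpf]
  · ring
  · intro a b h
    have : (a : ℤ) = b := by
      have h' : -(a : ℤ) = -(b : ℤ) := h
      linarith
    exact_mod_cast this
  · intro a b h
    have h' : (a : ℤ) = (b : ℤ) := h
    exact_mod_cast h'
  · rw [disjoint_left]
    intro x hx hx'
    rw [mem_image] at hx hx'
    obtain ⟨n, hn, rfl⟩ := hx
    obtain ⟨m, hm, h⟩ := hx'
    have h1 := Nat.pos_of_mem_divisors hn
    have h2 := Nat.pos_of_mem_divisors hm
    omega

/-- the parity of the number of the classes with a trivial second component -/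
lemma par_U {M : ℕ} (hM : Squarefree M) (hMo : Odd M) (hS : HS M) :
    ∃ k : ℕ, (VG M LU).ncard = 2 ^ k ∧ Even (k + M.primeFactors.card) := by
  have h1 : VG M LU = GB M (fun _ _ _ => True) ×ˢ ({1} : Set ℤ) := by
    have e : LU = LPQ (fun _ _ _ => True) (fun _ w g => w = false ∧ g = false) := by
      funext p v w h g
      unfold LU LPQ
      rw [true_and]
    rw [e, VG_prod hMo]
    congr 1
    ext x
    constructor
    · intro hx
      have hx2 : ((1 : ℤ), x) ∈ VA M := by
        refine ⟨squarefree_one, hx.1, one_pos, by norm_num, ?_, hx.2.1⟩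
        intro q hq h
        exact absurd h (Nat.prime_iff_prime_int.1 hq).not_dvd_one
      have hker : Ph M.primeFactors ((1 : ℤ), x) = 0 := by
        funext p
        have hp := Nat.prime_of_mem_primeFactors p.2
        obtain ⟨k1, k2⟩ := hx.2.2 p p.2
        show toX (dv p 1) (dv p x) (sgn p 1) (sgn p x) = 0
        rw [dv_one hp, sgn_one' hp, k1, k2]
        rfl
      have := Ph_ker hMo hS hx2 hker
      rw [Prod.mk.injEq] at this
      exact this.2
    · intro hx
      rw [Set.mem_singleton_iff] at hx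
      subst hx
      refine ⟨squarefree_one, one_dvd_prime M, fun p hp => ?_⟩
      have hpp := Nat.prime_of_mem_primeFactors hp
      exact ⟨dv_one hpp, sgn_one' hpp⟩
  have h2 : VA M = GB M (fun _ _ _ => True) ×ˢ GA M (fun _ _ _ => True) := by
    rw [← VG_prod hMo]
    ext d
    constructor
    · rintro ⟨h1, h2, h3, h4, h5, h6⟩
      exact ⟨h1, h2, h3, h4, h5, h6, fun _ _ => ⟨trivial, trivial⟩⟩
    · rintro ⟨h1, h2, h3, h4, h5, h6, -⟩
      exact ⟨h1, h2, h3, h4, h5, h6⟩
  have h3 : (VA M).ncard = 2 ^ (2 * M.primeFactors.card) := by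
    rw [← card_AM hMo hS, card_sub, finrank_AM (x0 := 1) (y0 := 1) hM hMo hS squarefree_one one_pos
      (by norm_num) squarefree_one (fun q hq h => absurd h
        (Nat.prime_iff_prime_int.1 hq).not_dvd_one) (one_dvd_prime M)]
  rw [h2, Set.ncard_prod, card_GA hM hMo] at h3
  rw [h1, Set.ncard_prod, Set.ncard_singleton, mul_one]
  have h4 : (GB M (fun _ _ _ => True)).ncard ∣ 2 ^ (2 * M.primeFactors.card) := ⟨_, h3.symm⟩
  obtain ⟨k, -, hk⟩ := (Nat.dvd_prime_pow Nat.prime_two).1 h4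
  refine ⟨k, hk, ?_⟩
  rw [hk, ← pow_add] at h3
  have h5 := Nat.pow_right_injective (le_refl 2) h3
  exact ⟨M.primeFactors.card - 1, by omega⟩

/-- **The parity theorem.** -/
theorem dual_parity {M : ℕ} (hM : Squarefree M) (hMo : Odd M) (hS : HS M)
    (P Q : ℕ → Bool → Bool → Prop) (hP : ∀ p, XC2 (P p)) (hQ : ∀ p, XC2 (Q p)) (k : ℕ → ℕ)
    (hD : ∀ p ∈ M.primeFactors, Dl (sg0 p (-1)) (P p) (Q p) (k p)) :
    ∃ f1 f2 : ℕ, (GB M P).ncard = 2 ^ f1 ∧ (GA M Q).ncard = 2 ^ f2 ∧
      Even (f1 + f2 + ∑ p ∈ M.primeFactors, (k p + 1)) := by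
  have o1 : ∀ q : ℕ, q.Prime → (q : ℤ) ∣ 1 → q ∣ M := fun q hq h => absurd h
    (Nat.prime_iff_prime_int.1 hq).not_dvd_one
  have hQA := QQ_AM hMo squarefree_one one_pos (by norm_num : (1 : ℤ) % 8 = 1) squarefree_one o1
    (one_dvd_prime M)
  have hfA := finrank_AM hM hMo hS squarefree_one one_pos (by norm_num : (1 : ℤ) % 8 = 1)
    squarefree_one o1 (one_dvd_prime M)
  have hpp : ∀ p ∈ M.primeFactors, sgn p 1 = false ∧ dv p 1 = false := fun p hp =>
    ⟨sgn_one' (Nat.prime_of_mem_primeFactors hp), dv_one (Nat.prime_of_mem_primeFactors hp)⟩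
  have hQW := QQ_WL (N := M.primeFactors) (e := fun p => sg0 p (-1))
    (a := fun p => sgn p 1) (b := fun p => dv p 1)
    (c := fun p => dv p 1) (d := fun p => sgn p 1) (L := LPQ P Q) (hL := xcLPQ hP hQ) (by
      intro p hp v w h g hL
      obtain ⟨e1, e2⟩ := hpp p hp
      simp only [e1, e2]
      unfold qb
      rw [(hD p hp).iso v h w g hL.1 hL.2]
      unfold hb
      cases sg0 p (-1) <;> cases v <;> cases w <;> cases h <;> cases g <;> rfl)
  have hQU := QQ_WL (N := M.primeFactors) (e := fun p => sg0 p (-1))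
    (a := fun p => sgn p 1) (b := fun p => dv p 1)
    (c := fun p => dv p 1) (d := fun p => sgn p 1) (L := LU) (hL := xcLU) (by
      intro p hp v w h g hL
      obtain ⟨e1, e2⟩ := hpp p hp
      obtain ⟨rfl, rfl⟩ := hL
      simp only [e1, e2]
      unfold qb hb
      cases sg0 p (-1) <;> cases v <;> cases h <;> rfl)
  have hfW : Module.finrank (ZMod 2) (WL M.primeFactors (LPQ P Q) (xcLPQ hP hQ)) =
      2 * M.primeFactors.card := by
    apply finrank_of_card
    rw [card_WL, prod_congr rfl (g := fun _ => 4), prod_const, pow_mul]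
    · norm_num
    intro p hp
    exact (hD p hp).card
  have hfU : Module.finrank (ZMod 2) (WL M.primeFactors LU xcLU) =
      2 * M.primeFactors.card := by
    apply finrank_of_card
    rw [card_WL, prod_congr rfl (g := fun _ => 4), prod_const, pow_mul]
    · norm_num
    intro p hp
    have key : ∀ (P : XX → Prop) [DecidablePred P], Fintype.card {x : XX // P x} = 4 →
        Nat.card {x : XX // P x} = 4 := by
      intro P _ h
      rw [Nat.card_eq_fintype_card, h]
    unfold LX LU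
    exact key _ (by decide)
  have hfI : Module.finrank (ZMod 2) (WL M.primeFactors (LPQ P Q) (xcLPQ hP hQ) ⊓
      WL M.primeFactors LU xcLU : Submodule (ZMod 2) (M.primeFactors → XX)) =
        ∑ p ∈ M.primeFactors, k p := by
    apply finrank_of_card
    rw [inf_WL, card_WL, ← prod_pow_eq_pow_sum]
    apply prod_congr rfl
    intro p hp
    exact (hD p hp).card'
  have key := Pool.Agent.Y212.RZ.LAG (M.primeFactors → XX)
    (BB M.primeFactors (fun p => b2z (sg0 p (-1))))
    (QQ M.primeFactors (fun p => b2z (sg0 p (-1))) (fun p => b2z (sgn p 1))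
      (fun p => b2z (dv p 1)) (fun p => b2z (dv p 1))
      (fun p => b2z (sgn p 1))) (2 * M.primeFactors.card) (AM M)
    (WL M.primeFactors (LPQ P Q) (xcLPQ hP hQ)) (WL M.primeFactors LU xcLU)
    (by rw [finrank_V]; ring) (BB_nondeg _ _) (QQ_add _ _ _ _ _ _) hQA hQW hQU hfA hfW hfU
  obtain ⟨k0, hk0, hpar⟩ := par_U hM hMo hS
  have c1 : Module.finrank (ZMod 2) (AM M ⊓ WL M.primeFactors LU xcLU :
      Submodule (ZMod 2) (M.primeFactors → XX)) = k0 := by
    apply finrank_of_card
    rw [card_inf hMo hS LU xcLU, hk0]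
  have c2 := card_inf hMo hS (LPQ P Q) (xcLPQ hP hQ)
  rw [VG_prod hMo, Set.ncard_prod, card_sub] at c2
  obtain ⟨m, hm⟩ : ∃ m, m = Module.finrank (ZMod 2) (AM M ⊓ WL M.primeFactors (LPQ P Q)
      (xcLPQ hP hQ) : Submodule (ZMod 2) (M.primeFactors → XX)) := ⟨_, rfl⟩
  rw [← hm] at c2
  obtain ⟨f1, -, hf1⟩ := (Nat.dvd_prime_pow Nat.prime_two).1
    (⟨_, c2⟩ : (GB M P).ncard ∣ 2 ^ m)
  obtain ⟨f2, -, hf2⟩ := (Nat.dvd_prime_pow Nat.prime_two).1
    (⟨_, c2.trans (mul_comm _ _)⟩ : (GA M Q).ncard ∣ 2 ^ m)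
  refine ⟨f1, f2, hf1, hf2, ?_⟩
  rw [hf1, hf2, ← pow_add] at c2
  have hff : m = f1 + f2 := Nat.pow_right_injective (le_refl 2) c2
  rw [hfI, c1, ← hm, hff] at key
  rw [sum_add_distrib, sum_const, smul_eq_mul, mul_one]
  obtain ⟨x, hx⟩ := key
  obtain ⟨y, hy⟩ := hpar
  have hle : k0 ≤ k0 + M.primeFactors.card := Nat.le_add_right _ _
  exact ⟨x + y - k0 - M.primeFactors.card, by omega⟩

end Pool.Agent.Q284.ISO
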