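import Mathlib
import Pool.Agent.Y667.RP.Two

/-!
# The quartics of the descent by 2-isogenies and the points of the curve
-/

set_option autoImplicit false

namespace Pool.Agent.Q284.ISO

/-- `1 + t² (c + c' t²)` is a nonzero square for a small nonzero `t`, for two pairs at once -/
def SQ (K : Type) [Field K] : Prop := ∀ c1 c1' c2 c2' : K, ∃ t : K, t ≠ 0 ∧
  (IsSquare (1 + t ^ 2 * (c1 + c1' * t ^ 2)) ∧ 1 + t ^ 2 * (c1 + c1' * t ^ 2) ≠ 0) ∧
  (IsSquare (1 + t ^ 2 * (c2 + c2' * t ^ 2)) ∧ 1 + t ^ 2 * (c2 + c2' * t ^ 2) ≠ 0)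

lemma sq_real : SQ ℝ := by
  intro c1 c1' c2 c2'
  have hc : ∀ c c' : ℝ, ∀ᶠ t : ℝ in nhdsWithin 0 {0}ᶜ, 0 < 1 + t ^ 2 * (c + c' * t ^ 2) := by
    intro c c'
    have h1 : Filter.Tendsto (fun t : ℝ => 1 + t ^ 2 * (c + c' * t ^ 2)) (nhds 0)
        (nhds (1 + 0 ^ 2 * (c + c' * 0 ^ 2))) := by
      apply Continuous.tendsto
      fun_prop
    have h2 : ∀ᶠ t : ℝ in nhds 0, 0 < 1 + t ^ 2 * (c + c' * t ^ 2) := by
      apply h1.eventually_const_lt
      norm_num
    exact h2.filter_mono nhdsWithin_le_nhds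
  have h0 : ∀ᶠ t : ℝ in nhdsWithin 0 {0}ᶜ, t ≠ 0 := eventually_mem_nhdsWithin
  obtain ⟨t, ht, k1, k2⟩ := (h0.and ((hc c1 c1').and (hc c2 c2'))).exists
  exact ⟨t, ht, ⟨⟨Real.sqrt _, (Real.mul_self_sqrt k1.le).symm⟩, k1.ne'⟩,
    ⟨⟨Real.sqrt _, (Real.mul_self_sqrt k2.le).symm⟩, k2.ne'⟩⟩

lemma sq_near {p : ℕ} [hp : Fact p.Prime] {w : ℚ_[p]} (hw : ‖w‖ ≤ ‖(4 * p : ℚ_[p])‖) :
    IsSquare (1 + w) ∧ 1 + w ≠ 0 := by
  have hp0 : (p : ℚ_[p]) ≠ 0 := by exact_mod_cast hp.out.ne_zero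
  have h40 : (4 * p : ℚ_[p]) ≠ 0 := mul_ne_zero (by norm_num) hp0
  have h1 : ‖w / (4 * p)‖ ≤ 1 := by
    rw [norm_div]
    exact div_le_one_of_le₀ hw (norm_nonneg _)
  obtain ⟨v, hv⟩ : ∃ v : ℤ_[p], (v : ℚ_[p]) = w / (4 * p) := ⟨⟨w / (4 * p), h1⟩, rfl⟩
  obtain ⟨z, hz⟩ := Pool.Agent.Y667.RP.hens p v
  have h2 := congrArg (fun t : ℤ_[p] => (t : ℚ_[p])) hz
  have hc4 : ((4 : ℤ_[p]) : ℚ_[p]) = 4 := rfl
  push_cast at h2
  rw [hc4, hv, mul_div_cancel₀ _ h40] at h2
  refine ⟨⟨z, h2⟩, ?_⟩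
  have h4p : ‖(4 * p : ℚ_[p])‖ < 1 := by
    rw [norm_mul]
    have e1 : ‖(4 : ℚ_[p])‖ ≤ 1 := by
      have := Padic.norm_int_le_one (p := p) 4
      simpa using this
    have e2 : ‖(p : ℚ_[p])‖ < 1 := Padic.norm_p_lt_one
    calc ‖(4 : ℚ_[p])‖ * ‖(p : ℚ_[p])‖ ≤ 1 * ‖(p : ℚ_[p])‖ := by gcongr
      _ < 1 := by rw [one_mul]; exact e2
  intro h0
  have h5 : w = -1 := by linear_combination h0
  rw [h5, norm_neg, norm_one] at hw
  linarith

lemma sq_padic (p : ℕ) [hp : Fact p.Prime] : SQ ℚ_[p] := by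
  intro c1 c1' c2 c2'
  have hp0 : (p : ℚ_[p]) ≠ 0 := by exact_mod_cast hp.out.ne_zero
  have h40 : (4 * p : ℚ_[p]) ≠ 0 := mul_ne_zero (by norm_num) hp0
  have h4 : 0 < ‖(4 * p : ℚ_[p])‖ := norm_pos_iff.2 h40
  have hpn : Filter.Tendsto (fun n : ℕ => (p : ℚ_[p]) ^ n) Filter.atTop (nhds 0) :=
    tendsto_pow_atTop_nhds_zero_of_norm_lt_one Padic.norm_p_lt_one
  have hc : ∀ c c' : ℚ_[p], ∀ᶠ n : ℕ in Filter.atTop,
      ‖((p : ℚ_[p]) ^ n) ^ 2 * (c + c' * ((p : ℚ_[p]) ^ n) ^ 2)‖ < ‖(4 * p : ℚ_[p])‖ := by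
    intro c c'
    have h1 : Filter.Tendsto (fun t : ℚ_[p] => ‖t ^ 2 * (c + c' * t ^ 2)‖) (nhds 0)
        (nhds ‖(0 : ℚ_[p]) ^ 2 * (c + c' * 0 ^ 2)‖) := by
      apply Continuous.tendsto
      fun_prop
    have h2 := h1.comp hpn
    apply h2.eventually_lt_const
    simpa using h4
  obtain ⟨n, k1, k2⟩ := ((hc c1 c1').and (hc c2 c2')).exists
  exact ⟨(p : ℚ_[p]) ^ n, pow_ne_zero n hp0, sq_near k1.le, sq_near k2.le⟩

/-- the class of `b₁` comes from a point of `y² = x (x² + a x + b)` over `K` -/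
def PtC (K : Type) [Field K] (a b : K) (b₁ : ℤ) : Prop :=
  ∃ x y : K, y ≠ 0 ∧ y ^ 2 = x * (x ^ 2 + a * x + b) ∧ IsSquare (x * b₁)

lemma isSq_div {K : Type} [Field K] {x z : K} (hz : z ≠ 0) (h : IsSquare (x * z ^ 2)) :
    IsSquare x := by
  obtain ⟨w, hw⟩ := h
  refine ⟨w / z, ?_⟩
  field_simp
  rw [hw]
  ring

theorem quart_iff {K : Type} [Field K] [CharZero K] (hK : SQ K) {a b b₁ : ℤ} (hb : b ≠ 0)
    (hd : a ^ 2 - 4 * b ≠ 0) (h1 : b₁ ∣ b) :
    (∃ N M e : K, (M ≠ 0 ∨ e ≠ 0) ∧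
      N ^ 2 = (b₁ : K) * M ^ 4 + (a : K) * M ^ 2 * e ^ 2 + ((b / b₁ : ℤ) : K) * e ^ 4) ↔
    PtC K a b b₁ := by
  obtain ⟨c, hc⟩ := h1
  have hb1 : b₁ ≠ 0 := by rintro rfl; exact hb (by rw [hc, zero_mul])
  have hc0 : c ≠ 0 := by rintro rfl; exact hb (by rw [hc, mul_zero])
  have hbc : b / b₁ = c := by rw [hc, Int.mul_ediv_cancel_left _ hb1]
  rw [hbc]
  have hB : (b : K) = b₁ * c := by rw [hc]; push_cast; ring
  have hb1K : (b₁ : K) ≠ 0 := by exact_mod_cast hb1
  have hcK : (c : K) ≠ 0 := by exact_mod_cast hc0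
  have hbK : (b : K) ≠ 0 := by exact_mod_cast hb
  have hdK : (a : K) ^ 2 - 4 * b ≠ 0 := by exact_mod_cast hd
  constructor
  · rintro ⟨N, M, e, hMe, hN⟩
    obtain ⟨t, ht, ⟨t1, t1'⟩, -⟩ := hK (a : K) (b : K) 0 0
    by_cases he : e = 0
    · -- the point at infinity
      have hM : M ≠ 0 := hMe.resolve_right (fun h => h he)
      have hsq : IsSquare (b₁ : K) := by
        refine ⟨N / M ^ 2, ?_⟩
        field_simp
        rw [hN, he]
        ring
      obtain ⟨w, hw⟩ := t1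
      have hw0 : w ≠ 0 := by rintro rfl; exact t1' (by rw [hw, mul_zero])
      refine ⟨1 / t ^ 2, w / t ^ 3, div_ne_zero hw0 (pow_ne_zero 3 ht), ?_, ?_⟩
      · have h2 : 1 / t ^ 2 * ((1 / t ^ 2) ^ 2 + (a : K) * (1 / t ^ 2) + b) =
          (1 + t ^ 2 * (a + b * t ^ 2)) / t ^ 6 := by
          field_simp
          ring
        rw [h2, hw, div_pow]
        ring
      · have h3 : IsSquare (1 / t ^ 2) := ⟨1 / t, by field_simp⟩
        exact h3.mul hsq
    · by_cases hM : M = 0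
      · -- the point `(0, 0)`
        have hsq : IsSquare (c : K) := by
          refine ⟨N / e ^ 2, ?_⟩
          field_simp
          rw [hN, hM]
          ring
        obtain ⟨w, hw⟩ := t1
        have hw0 : w ≠ 0 := by rintro rfl; exact t1' (by rw [hw, mul_zero])
        refine ⟨t ^ 2 * b, t * b * w, mul_ne_zero (mul_ne_zero ht hbK) hw0, ?_, ?_⟩
        · have h2 : t ^ 2 * (b : K) * ((t ^ 2 * b) ^ 2 + a * (t ^ 2 * b) + b) =
            t ^ 2 * b ^ 2 * (1 + t ^ 2 * (a + b * t ^ 2)) := by ring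
          rw [h2, hw]
          ring
        · obtain ⟨z, hz⟩ := hsq
          refine ⟨t * b₁ * z, ?_⟩
          rw [hB, hz]
          ring
      · by_cases hN0 : N = 0
        · -- the other points of order two
          obtain ⟨x0, hx0⟩ : ∃ x0 : K, x0 = b₁ * M ^ 2 / e ^ 2 := ⟨_, rfl⟩
          have hx0n : x0 ≠ 0 := by
            rw [hx0]
            exact div_ne_zero (mul_ne_zero hb1K (pow_ne_zero 2 hM)) (pow_ne_zero 2 he)
          have hroot : x0 ^ 2 + a * x0 + b = 0 := by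
            rw [hN0] at hN
            rw [hx0, hB]
            field_simp
            linear_combination (-(b₁ : K)) * hN
          have hder : (2 * x0 + a) ^ 2 = (a : K) ^ 2 - 4 * b := by linear_combination 4 * hroot
          have hdn : 2 * x0 + a ≠ 0 := by
            intro h
            rw [h] at hder
            exact hdK (by rw [← hder]; ring)
          obtain ⟨t, ht, ⟨t1, t1'⟩, t2, t2'⟩ := hK (2 * x0 + a) 0 x0 0
          simp only [zero_mul, add_zero] at t1 t1' t2 t2'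
          have hprod := t1.mul t2
          obtain ⟨w, hw⟩ := hprod
          have hw0 : w ≠ 0 := by
            rintro rfl
            rw [mul_zero] at hw
            exact mul_ne_zero t1' t2' hw
          refine ⟨x0 * (1 + t ^ 2 * (2 * x0 + a)), t * x0 * (2 * x0 + a) * w,
            mul_ne_zero (mul_ne_zero (mul_ne_zero ht hx0n) hdn) hw0, ?_, ?_⟩
          · have h2 : (x0 * (1 + t ^ 2 * (2 * x0 + a))) * ((x0 * (1 + t ^ 2 * (2 * x0 + a))) ^ 2 +
              a * (x0 * (1 + t ^ 2 * (2 * x0 + a))) + b) = (t * x0 * (2 * x0 + a)) ^ 2 *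
              ((1 + t ^ 2 * (2 * x0 + a)) * (1 + t ^ 2 * x0)) := by
              linear_combination (x0 * (1 + t ^ 2 * (2 * x0 + a))) * hroot
            rw [h2, hw]
            ring
          · have h3 : x0 * (1 + t ^ 2 * (2 * x0 + a)) * b₁ =
                (b₁ * M / e) * (b₁ * M / e) * (1 + t ^ 2 * (2 * x0 + a)) := by
              have h4 : x0 * b₁ = (b₁ * M / e) * (b₁ * M / e) := by
                rw [hx0]
                field_simp
              rw [← h4]
              ring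
            rw [h3]
            exact (IsSquare.mul_self _).mul t1
        · refine ⟨b₁ * M ^ 2 / e ^ 2, b₁ * M * N / e ^ 3, div_ne_zero (mul_ne_zero
            (mul_ne_zero hb1K hM) hN0) (pow_ne_zero 3 he), ?_, ?_⟩
          · rw [hB]
            field_simp
            rw [hN]
            ring
          · refine ⟨b₁ * M / e, ?_⟩
            field_simp
  · rintro ⟨x, y, hy, hxy, z, hz⟩
    have hx : x ≠ 0 := by
      rintro rfl
      apply hy
      rw [zero_mul] at hxy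
      exact pow_eq_zero_iff (two_ne_zero) |>.1 hxy
    have hz0 : z ≠ 0 := by
      rintro rfl
      rw [mul_zero] at hz
      exact mul_ne_zero hx hb1K hz
    refine ⟨b₁ ^ 2 * y / z, z, b₁, Or.inl hz0, ?_⟩
    have h2 : z ^ 2 = x * b₁ := by rw [hz]; ring
    have h3 : z ^ 4 = (x * b₁) ^ 2 := by rw [← h2]; ring
    have h4 : ((b₁ : K) ^ 2 * y / z) ^ 2 = b₁ ^ 3 * (x ^ 2 + a * x + b) := by
      rw [div_pow, mul_pow, h2, hxy]
      field_simp
    rw [h4, h2, h3, hB]
    ring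

/-- the same class of a point of the isogenous curve -/
theorem dual_iff {K : Type} [Field K] [CharZero K] (hK : SQ K) {A B : K} {d : ℤ} (hA : A ≠ 0)
    (hB : B ≠ 0) (hAB : A ≠ B) (hd : d ≠ 0) :
    PtC K (2 * (A + B)) ((A - B) ^ 2) d ↔
      ∃ x y : K, y ≠ 0 ∧ y ^ 2 = x * (x - A) * (x - B) ∧ IsSquare x ∧ IsSquare ((x - A) * d) := by
  have hdK : (d : K) ≠ 0 := by exact_mod_cast hd
  have hC : A - B ≠ 0 := sub_ne_zero.2 hAB
  have hC' : B - A ≠ 0 := sub_ne_zero.2 (Ne.symm hAB)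
  constructor
  · rintro ⟨x', y', hy', hxy', z, hz⟩
    have hx' : x' ≠ 0 := by
      rintro rfl
      apply hy'
      rw [zero_mul] at hxy'
      exact pow_eq_zero_iff (two_ne_zero) |>.1 hxy'
    obtain ⟨x, hx⟩ : ∃ x : K, x = (y' / (2 * x')) ^ 2 := ⟨_, rfl⟩
    have e1 : x = (x' ^ 2 + 2 * (A + B) * x' + (A - B) ^ 2) / (4 * x') := by
      rw [hx, div_pow, hxy']
      field_simp
      ring
    have e2 : x - A = (x' - (A - B)) ^ 2 / (4 * x') := by
      rw [e1]; field_simp; ring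
    have e3 : x - B = (x' + (A - B)) ^ 2 / (4 * x') := by
      rw [e1]; field_simp; ring
    have hxn : x ≠ 0 := by
      rw [hx]
      exact pow_ne_zero 2 (div_ne_zero hy' (mul_ne_zero two_ne_zero hx'))
    have hxs : IsSquare x := ⟨y' / (2 * x'), by rw [hx]; ring⟩
    by_cases h1 : x' = A - B
    · -- the point `(A, 0)`
      have hxA : x = A := by
        have : x - A = 0 := by rw [e2, h1]; ring
        linear_combination this
      obtain ⟨t, ht, ⟨t1, t1'⟩, t2, t2'⟩ := hK (A - B) 0 A 0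
      simp only [zero_mul, add_zero] at t1 t1' t2 t2'
      obtain ⟨w, hw⟩ := t1.mul t2
      have hw0 : w ≠ 0 := by
        rintro rfl
        rw [mul_zero] at hw
        exact mul_ne_zero t1' t2' hw
      refine ⟨A * (1 + t ^ 2 * (A - B)), t * A * (A - B) * w,
        mul_ne_zero (mul_ne_zero (mul_ne_zero ht hA) hC) hw0, ?_, ?_, ?_⟩
      · have h2 : A * (1 + t ^ 2 * (A - B)) * (A * (1 + t ^ 2 * (A - B)) - A) *
          (A * (1 + t ^ 2 * (A - B)) - B) = (t * A * (A - B)) ^ 2 *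
          ((1 + t ^ 2 * (A - B)) * (1 + t ^ 2 * A)) := by ring
        rw [h2, hw]; ring
      · rw [hxA] at hxs
        exact hxs.mul t1
      · have h3 : (A * (1 + t ^ 2 * (A - B)) - A) * d = (t * t) * (x * (z * z)) := by
          rw [← hz, h1, hxA]; ring
        rw [h3]
        exact (IsSquare.mul_self t).mul (hxs.mul (IsSquare.mul_self z))
    · by_cases h2 : x' = B - A
      · have hxB : x = B := by
          have : x - B = 0 := by rw [e3, h2]; ring
          linear_combination this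
        obtain ⟨t, ht, ⟨t1, t1'⟩, t2, t2'⟩ := hK (B - A) 0 B 0
        simp only [zero_mul, add_zero] at t1 t1' t2 t2'
        obtain ⟨w, hw⟩ := t1.mul t2
        have hw0 : w ≠ 0 := by
          rintro rfl
          rw [mul_zero] at hw
          exact mul_ne_zero t1' t2' hw
        refine ⟨B * (1 + t ^ 2 * (B - A)), t * B * (B - A) * w,
          mul_ne_zero (mul_ne_zero (mul_ne_zero ht hB) hC') hw0, ?_, ?_, ?_⟩
        · have h2 : B * (1 + t ^ 2 * (B - A)) * (B * (1 + t ^ 2 * (B - A)) - A) *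
            (B * (1 + t ^ 2 * (B - A)) - B) = (t * B * (B - A)) ^ 2 *
            ((1 + t ^ 2 * (B - A)) * (1 + t ^ 2 * B)) := by ring
          rw [h2, hw]; ring
        · rw [hxB] at hxs
          exact hxs.mul t1
        · have h3 : (B * (1 + t ^ 2 * (B - A)) - A) * d = (z * z) * (1 + t ^ 2 * B) := by
            rw [← hz, h2]; ring
          rw [h3]
          exact (IsSquare.mul_self z).mul t2
      · have k1 : x' - (A - B) ≠ 0 := sub_ne_zero.2 h1
        have k2 : x' + (A - B) ≠ 0 := by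
          intro h
          apply h2
          linear_combination h
        refine ⟨x, y' / (2 * x') * ((x' - (A - B)) * (x' + (A - B)) / (4 * x')),
          mul_ne_zero (div_ne_zero hy' (mul_ne_zero two_ne_zero hx'))
            (div_ne_zero (mul_ne_zero k1 k2) (mul_ne_zero (by norm_num : (4 : K) ≠ 0) hx')), ?_, hxs, ?_⟩
        · rw [e2, e3, mul_pow, ← hx, div_pow]
          ring
        · refine ⟨(x' - (A - B)) * z / (2 * x'), ?_⟩
          have h5 : (x - A) * d = (x' - (A - B)) ^ 2 * (x' * d) / (2 * x') ^ 2 := by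
            rw [e2]; field_simp; ring
          rw [h5, hz]
          field_simp
  · rintro ⟨x, y, hy, hxy, ⟨r, hr⟩, u, hu⟩
    have hxA : x - A ≠ 0 := by
      intro h
      apply hy
      rw [h, mul_zero, zero_mul] at hxy
      exact pow_eq_zero_iff (two_ne_zero) |>.1 hxy
    have hx : x ≠ 0 := by
      intro h
      apply hy
      rw [h, zero_mul, zero_mul] at hxy
      exact pow_eq_zero_iff (two_ne_zero) |>.1 hxy
    have hr0 : r ≠ 0 := by
      rintro rfl
      exact hx (by rw [hr, mul_zero])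
    have hu0 : u ≠ 0 := by
      rintro rfl
      rw [mul_zero] at hu
      exact mul_ne_zero hxA hdK hu
    obtain ⟨v, hv⟩ : ∃ v : K, v = y * d / (r * u) := ⟨_, rfl⟩
    have hv2 : (x - B) * d = v * v := by
      have h2 : v * v = y ^ 2 * d ^ 2 / ((r * r) * (u * u)) := by
        rw [hv]; field_simp
      rw [h2, ← hr, ← hu, hxy]
      field_simp
    have huv : u + v ≠ 0 := by
      intro h
      have h2 : (u + v) * (u - v) = d * (B - A) := by linear_combination hv2 - hu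
      rw [h, zero_mul] at h2
      exact mul_ne_zero hdK hC' h2.symm
    refine ⟨(u + v) ^ 2 / d, 2 * ((u + v) ^ 2 / d) * r, ?_, ?_, ?_⟩
    · exact mul_ne_zero (mul_ne_zero two_ne_zero (div_ne_zero (pow_ne_zero 2 huv) hdK)) hr0
    · have e1 : x = u * u / d + A := by
        field_simp
        linear_combination hu
      have e2 : B = A + (u * u - v * v) / d := by
        field_simp
        linear_combination hu - hv2
      have e3 : (2 * ((u + v) ^ 2 / d) * r) ^ 2 = 4 * ((u + v) ^ 2 / d) ^ 2 * x := by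
        rw [hr]; ring
      rw [e3, e2, e1]
      field_simp
      ring
    · refine ⟨u + v, ?_⟩
      field_simp

end Pool.Agent.Q284.ISO
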