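import Pool.Agent.Q284.ISO.Par

/-!
# The parity for the three isogenies of the curves of the triples
-/

set_option autoImplicit false

namespace Pool.Agent.Q284.ISO

open Finset Pool.Agent.W262.RK Pool.Agent.W307.RT Pool.Agent.W307.RS Pool.Agent.W307.SE
  Pool.Agent.W307.FK Pool.Agent.Y667.RP Pool.Agent.Y667.RZ Pool.Agent.Y655.RZ

open NumberTheorySymbols jacobiSym

/-- the conditions for the three isogenies: those of the positive classes -/
def PP (i : Fin 3) (R : Bool → Bool → Bool → Bool → Prop) (v h : Bool) : Prop :=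
  if i = 0 then ∃ w g, R v w h g else if i = 1 then R v false h false else R v v h h

/-- the other conditions -/
def QQc (i : Fin 3) (R : Bool → Bool → Bool → Bool → Prop) (w g : Bool) : Prop :=
  if i = 0 then R false w false g else if i = 1 then ∃ v h, R v w h g
  else ∃ v w' h g', R v w' h g' ∧ w = xor v w' ∧ g = xor h g'

lemma xcPP (i : Fin 3) {R : Bool → Bool → Bool → Bool → Prop} (h : XC R) : XC2 (PP i R) := by
  have hi := fin3 i
  rcases hi with rfl | rfl | rfl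
  · refine ⟨⟨_, _, h.1⟩, ?_⟩
    rintro v x v' x' ⟨w, g, k⟩ ⟨w', g', k'⟩
    exact ⟨_, _, h.2 _ _ _ _ _ _ _ _ k k'⟩
  · refine ⟨h.1, ?_⟩
    intro v x v' x' k k'
    exact h.2 _ _ _ _ _ _ _ _ k k'
  · refine ⟨h.1, ?_⟩
    intro v x v' x' k k'
    exact h.2 _ _ _ _ _ _ _ _ k k'

lemma xcQQ (i : Fin 3) {R : Bool → Bool → Bool → Bool → Prop} (h : XC R) : XC2 (QQc i R) := by
  have hi := fin3 i
  rcases hi with rfl | rfl | rfl
  · refine ⟨h.1, ?_⟩
    intro v x v' x' k k'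
    exact h.2 _ _ _ _ _ _ _ _ k k'
  · refine ⟨⟨_, _, h.1⟩, ?_⟩
    rintro v x v' x' ⟨w, g, k⟩ ⟨w', g', k'⟩
    exact ⟨_, _, h.2 _ _ _ _ _ _ _ _ k k'⟩
  · refine ⟨⟨_, _, _, _, h.1, rfl, rfl⟩, ?_⟩
    rintro v x v' x' ⟨a, b, c, d, k, rfl, rfl⟩ ⟨a', b', c', d', k', rfl, rfl⟩
    refine ⟨_, _, _, _, h.2 _ _ _ _ _ _ _ _ k k', ?_, ?_⟩
    · cases a <;> cases b <;> cases a' <;> cases b' <;> rfl
    · cases c <;> cases d <;> cases c' <;> cases d' <;> rfl

/-- the special class of the isogeny -/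
def jj (i : Fin 3) : Fin 3 := if i = 0 then 2 else if i = 1 then 1 else 0

/-- the dimensions -/
def dd (i : Fin 3) (sp neg : Bool) : ℕ :=
  if sp = true then (if neg = true then 1 else (if i = 0 then 0 else 2))
  else (if i = 0 then 2 else 0)

lemma cardkey (n : ℕ) (P : XX → Prop) [DecidablePred P] (h : Fintype.card {x : XX // P x} = n) :
    Nat.card {x : XX // P x} = n := by
  rw [Nat.card_eq_fintype_card, h]

instance decLR (c : Fin 3) (neg v w h g : Bool) : Decidable (LR c neg v w h g) := by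
  unfold LR; infer_instance

instance decL1 (v w h g : Bool) : Decidable (L1 v w h g) := by
  unfold L1; infer_instance

instance decPP (i : Fin 3) (R : Bool → Bool → Bool → Bool → Prop)
    [∀ v w h g, Decidable (R v w h g)] (v h : Bool) : Decidable (PP i R v h) := by
  unfold PP; infer_instance

instance decQQ (i : Fin 3) (R : Bool → Bool → Bool → Bool → Prop)
    [∀ v w h g, Decidable (R v w h g)] (v h : Bool) : Decidable (QQc i R v h) := by
  unfold QQc; infer_instance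

instance decLX (R : Bool → Bool → Bool → Bool → Prop)
    [∀ v w h g, Decidable (R v w h g)] : DecidablePred (LX R) := by
  intro x; unfold LX; infer_instance

set_option maxRecDepth 100000 in
lemma iso_LR : ∀ (e neg : Bool) (i j : Fin 3) (v h w g : Bool), PP i (LR j neg) v h →
    QQc i (LR j neg) w g → hb e v h w g = false := by decide

set_option maxRecDepth 100000 in
lemma cardt : ∀ (neg : Bool) (i j : Fin 3), Fintype.card {x : XX //
    LX (fun v w h g => PP i (LR j neg) v h ∧ QQc i (LR j neg) w g) x} = 4 := by decide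

set_option maxRecDepth 100000 in
lemma cardt' : ∀ (neg : Bool) (i j : Fin 3), Fintype.card {x : XX //
    LX (fun v w h g => (PP i (LR j neg) v h ∧ QQc i (LR j neg) w g) ∧ (w = false ∧ g = false)) x} =
      2 ^ (dd i (decide (j = jj i)) neg) := by decide

lemma dl_LR (e neg : Bool) (i j : Fin 3) :
    Dl e (PP i (LR j neg)) (QQc i (LR j neg)) (dd i (decide (j = jj i)) neg) :=
  ⟨iso_LR e neg i j, cardkey _ _ (cardt neg i j), cardkey _ _ (cardt' neg i j)⟩

set_option maxRecDepth 100000 in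
lemma iso_L1 : ∀ (i : Fin 3) (v h w g : Bool), PP i L1 v h →
    QQc i L1 w g → hb false v h w g = false := by decide

set_option maxRecDepth 100000 in
lemma cardt1 : ∀ (i : Fin 3), Fintype.card {x : XX //
    LX (fun v w h g => PP i L1 v h ∧ QQc i L1 w g) x} = 4 := by decide

set_option maxRecDepth 100000 in
lemma cardt1' : ∀ (i : Fin 3), Fintype.card {x : XX //
    LX (fun v w h g => (PP i L1 v h ∧ QQc i L1 w g) ∧ (w = false ∧ g = false)) x} =
      2 ^ (if i = 0 then 1 else 0) := by decide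

lemma dl_L1 (i : Fin 3) : Dl false (PP i L1) (QQc i L1) (if i = 0 then 1 else 0) :=
  ⟨iso_L1 i, cardkey _ _ (cardt1 i), cardkey _ _ (cardt1' i)⟩

section

variable {s : Fin 3 → ℕ}

/-- the product of the signs of the class `j` -/
def chi (s : Fin 3 → ℕ) (E : Finset ℕ) (j : Fin 3) : ℤ :=
  ∏ p ∈ (∏ j, s j).primeFactors, (if p ∣ s j ∧ p ∈ E then -1 else 1)

lemma only_one (hs : Squarefree (∏ j, s j)) {p : ℕ} (hp : p.Prime) {i j : Fin 3} (hij : i ≠ j)
    (hi : p ∣ s i) : ¬ p ∣ s j := by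
  intro hj
  have h1 : s i * s j ∣ ∏ j, s j := by
    rw [← mul_prod_erase univ s (mem_univ j), mul_comm]
    exact Nat.mul_dvd_mul_left _ (dvd_prod_of_mem s (mem_erase.2 ⟨hij, mem_univ i⟩))
  have h2 := hs p ((Nat.mul_dvd_mul hi hj).trans h1)
  exact hp.one_lt.ne' (Nat.isUnit_iff.1 h2)

lemma ex_cls (hs : Squarefree (∏ j, s j)) {p : ℕ} (hp : p ∈ (∏ j, s j).primeFactors) :
    ∃ j : Fin 3, p ∣ s j ∧ ∀ l : Fin 3, p ∣ s l ↔ l = j := by
  have hpp := Nat.prime_of_mem_primeFactors hp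
  obtain ⟨j, -, hj⟩ := (hpp.prime.dvd_finsetProd_iff _).1 (Nat.dvd_of_mem_primeFactors hp)
  refine ⟨j, hj, fun l => ⟨fun hl => ?_, fun hl => by rw [hl]; exact hj⟩⟩
  by_contra hne
  exact only_one hs hpp (Ne.symm hne) hj hl

/-- the sum of the dimensions -/
lemma sum_sign (E : Finset ℕ) (i : Fin 3) :
    (-1 : ℤ) ^ (∑ p ∈ (∏ j, s j).primeFactors,
      (dd i (decide (p ∣ s (jj i))) (decide (p ∈ E)) + 1)) =
      (-1) ^ (∏ j, s j).primeFactors.card * chi s E (jj i) := by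
  rw [← prod_pow_eq_pow_sum]
  unfold chi
  rw [← prod_const, ← prod_mul_distrib]
  apply prod_congr rfl
  intro p _
  have key : ∀ (i : Fin 3) (a b : Bool), (-1 : ℤ) ^ (dd i a b + 1) =
      -1 * (if a = true ∧ b = true then -1 else 1) := by
    unfold dd
    decide
  rw [key]
  simp only [decide_eq_true_eq]

lemma compl_sign (hs : Squarefree (∏ j, s j)) (E : Finset ℕ) :
    (-1 : ℤ) ^ ((∏ j, s j).primeFactors \ E).card =
      (-1) ^ (∏ j, s j).primeFactors.card * (chi s E 0 * chi s E 1 * chi s E 2) := by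
  have h1 : (-1 : ℤ) ^ ((∏ j, s j).primeFactors \ E).card =
      ∏ p ∈ (∏ j, s j).primeFactors, (if p ∈ E then 1 else -1) := by
    rw [prod_ite, prod_const_one, one_mul, prod_const]
    congr 2
    ext p
    simp only [mem_sdiff, mem_filter]
  rw [h1]
  unfold chi
  rw [← prod_const, ← prod_mul_distrib, ← prod_mul_distrib, ← prod_mul_distrib]
  apply prod_congr rfl
  intro p hp
  obtain ⟨j, hj, hl⟩ := ex_cls hs hp
  simp only [hl]
  by_cases hE : p ∈ E
  · rcases fin3 j with rfl | rfl | rfl <;> simp [hE]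
  · simp [hE]

/-- the product over the primes of one class -/
lemma chi_eq (hs : Squarefree (∏ j, s j)) (E : Finset ℕ) (j : Fin 3) (x : ℤ)
    (hx : ∀ p : ℕ, p.Prime → p ∣ s j → ¬ (p : ℤ) ∣ x)
    (hE : ∀ p : ℕ, p.Prime → p ∣ s j → (p ∈ E ↔ J(x | p) = -1)) : chi s E j = J(x | s j) := by
  have hsj : Squarefree (s j) := hs.squarefree_of_dvd (dvd_prod_of_mem s (mem_univ j))
  rw [← jac_sqf hsj]
  unfold chi
  have hf : (s j).primeFactors = (∏ j, s j).primeFactors.filter (fun p => p ∣ s j) := by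
    ext p
    rw [mem_filter, Nat.mem_primeFactors, Nat.mem_primeFactors]
    constructor
    · rintro ⟨h1, h2, h3⟩
      exact ⟨⟨h1, h2.trans (dvd_prod_of_mem s (mem_univ j)), hs.ne_zero⟩, h2⟩
    · rintro ⟨⟨h1, -, -⟩, h2⟩
      exact ⟨h1, h2, hsj.ne_zero⟩
  rw [hf, prod_filter]
  apply prod_congr rfl
  intro p hp
  have hpp := Nat.prime_of_mem_primeFactors hp
  by_cases hd : p ∣ s j
  · rw [if_pos hd]
    have h1 := hE p hpp hd
    have h2 : J(x | p) = 1 ∨ J(x | p) = -1 := by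
      apply jacobiSym.eq_one_or_neg_one
      rw [Int.gcd_comm, ← Int.isCoprime_iff_gcd_eq_one]
      exact ((Nat.prime_iff_prime_int.1 hpp).coprime_iff_not_dvd).2 (hx p hpp hd)
    by_cases hpE : p ∈ E
    · rw [if_pos ⟨hd, hpE⟩, h1.1 hpE]
    · rw [if_neg (fun h => hpE h.2)]
      rcases h2 with h2 | h2
      · exact h2.symm
      · exact absurd (h1.2 h2) hpE
  · rw [if_neg hd, if_neg (fun h => hd h.1)]

lemma nd_int (hs : Squarefree (∏ j, s j)) {i j : Fin 3} (hij : i ≠ j) : ∀ p : ℕ, p.Prime →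
    p ∣ s i → ¬ (p : ℤ) ∣ (s j : ℤ) := fun _ hp hi h =>
  only_one hs hp hij hi (Int.natCast_dvd_natCast.1 h)

lemma HP.memE (h : HP s) {p : ℕ} (hp : p.Prime) (hpP : p ∣ ∏ j, s j) :
    (p ∣ s 0 → (p ∈ sgF (s 0) (s 1) (∏ j, s j) ↔ jacobiSym (-(s 1 : ℤ)) p = -1)) ∧
    (p ∣ s 1 → (p ∈ sgF (s 0) (s 1) (∏ j, s j) ↔ jacobiSym (-(s 0 : ℤ)) p = -1)) ∧
    (p ∣ s 2 → (p ∈ sgF (s 0) (s 1) (∏ j, s j) ↔ jacobiSym (s 0 : ℤ) p = -1)) :=
  (⟨h.sq, h.odd, Nat.coprime_one_right _, h.rel, one_pos⟩ : Pool.Agent.Y535.RZ.Dat s 1).memE hp hpP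

lemma dvd_P (j : Fin 3) : s j ∣ ∏ j, s j := dvd_prod_of_mem s (mem_univ j)

lemma HP.chi0 (h : HP s) : chi s (sgF (s 0) (s 1) (∏ j, s j)) 0 = J(-(s 1 : ℤ) | s 0) := by
  apply chi_eq h.sq
  · intro p hp hd
    rw [dvd_neg]
    exact nd_int h.sq (by decide) p hp hd
  · intro p hp hd
    exact (h.memE hp (hd.trans (dvd_P 0))).1 hd

lemma HP.chi1 (h : HP s) : chi s (sgF (s 0) (s 1) (∏ j, s j)) 1 = J(-(s 0 : ℤ) | s 1) := by
  apply chi_eq h.sq
  · intro p hp hd
    rw [dvd_neg]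
    exact nd_int h.sq (by decide) p hp hd
  · intro p hp hd
    exact (h.memE hp (hd.trans (dvd_P 1))).2.1 hd

lemma HP.chi2 (h : HP s) : chi s (sgF (s 0) (s 1) (∏ j, s j)) 2 = J((s 0 : ℤ) | s 2) := by
  apply chi_eq h.sq
  · intro p hp hd
    exact nd_int h.sq (by decide) p hp hd
  · intro p hp hd
    exact (h.memE hp (hd.trans (dvd_P 2))).2.2 hd

lemma HP.oj (h : HP s) (j : Fin 3) : Odd (s j) := Odd.of_dvd_nat h.odd (dvd_P j)

lemma HP.chi01 (h : HP s) : chi s (sgF (s 0) (s 1) (∏ j, s j)) 0 =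
    chi s (sgF (s 0) (s 1) (∏ j, s j)) 1 := by
  rw [h.chi0, h.chi1, ← neg_one_mul, ← neg_one_mul (s 0 : ℤ), jacobiSym.mul_left,
    jacobiSym.mul_left, eps_one (Or.inr (Or.inl rfl)) h.m0, eps_one (Or.inr (Or.inl rfl)) h.m1,
    one_mul, one_mul]
  have h0 : s 0 % 4 = 1 := by have := h.m0; omega
  exact (jacobiSym.quadratic_reciprocity_one_mod_four h0 (h.oj 1)).symm

lemma HP.chi02 (h : HP s) : chi s (sgF (s 0) (s 1) (∏ j, s j)) 0 =
    chi s (sgF (s 0) (s 1) (∏ j, s j)) 2 := by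
  rw [h.chi0, h.chi2]
  have e1 : -(s 1 : ℤ) = 2 ^ 5 * s 2 - s 0 * 1 := by
    have := h.rel
    linarith
  have h0 : s 0 % 4 = 1 := by have := h.m0; omega
  rw [e1, jacobiSym.mod_left, Int.sub_mul_emod_self_left, ← jacobiSym.mod_left,
    jacobiSym.mul_left, jacobiSym.pow_left, eps_one (Or.inr (Or.inr (Or.inl rfl))) h.m0, one_pow,
    one_mul]
  exact (jacobiSym.quadratic_reciprocity_one_mod_four h0 (h.oj 2)).symm

lemma chi_pm (E : Finset ℕ) (j : Fin 3) : chi s E j = 1 ∨ chi s E j = -1 := by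
  unfold chi
  apply prod_induction _ (fun x : ℤ => x = 1 ∨ x = -1)
  · rintro a b (rfl | rfl) (rfl | rfl) <;> norm_num
  · exact Or.inl rfl
  · intro p _
    split_ifs
    · exact Or.inr rfl
    · exact Or.inl rfl

lemma HP.chi_all (h : HP s) (j : Fin 3) : chi s (sgF (s 0) (s 1) (∏ j, s j)) j =
    chi s (sgF (s 0) (s 1) (∏ j, s j)) 0 := by
  rcases fin3 j with rfl | rfl | rfl
  · rfl
  · exact h.chi01.symm
  · exact h.chi02.symm

lemma HP.nsplit (h : HP s) :
    (-1 : ℤ) ^ ((∏ j, s j).primeFactors \ sgF (s 0) (s 1) (∏ j, s j)).card =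
      (-1) ^ (∏ j, s j).primeFactors.card * chi s (sgF (s 0) (s 1) (∏ j, s j)) 0 := by
  rw [compl_sign h.sq, h.chi_all 1, h.chi_all 2]
  rcases chi_pm (s := s) (sgF (s 0) (s 1) (∏ j, s j)) 0 with h1 | h1 <;> rw [h1] <;> norm_num

lemma even_of_sign {a b : ℕ} (h : (-1 : ℤ) ^ a = (-1) ^ b) : Even (a + b) := by
  rw [Nat.even_add]
  rcases Nat.even_or_odd a with ha | ha <;> rcases Nat.even_or_odd b with hb | hb
  · exact ⟨fun _ => hb, fun _ => ha⟩
  · rw [ha.neg_one_pow, hb.neg_one_pow] at h; norm_num at h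
  · rw [ha.neg_one_pow, hb.neg_one_pow] at h; norm_num at h
  · exact ⟨fun h => absurd h (Nat.not_even_iff_odd.2 ha), fun h =>
      absurd h (Nat.not_even_iff_odd.2 hb)⟩

/-- **The parity for the curve of the triple.** -/
theorem HP.six1 (h : HP s) (i : Fin 3) : ∃ f1 f2 : ℕ,
    (GB (∏ j, s j) (fun p => PP i (LF s (sgF (s 0) (s 1) (∏ j, s j)) p))).ncard = 2 ^ f1 ∧
    (GA (∏ j, s j) (fun p => QQc i (LF s (sgF (s 0) (s 1) (∏ j, s j)) p))).ncard = 2 ^ f2 ∧
    Even (f1 + f2 + ((∏ j, s j).primeFactors \ sgF (s 0) (s 1) (∏ j, s j)).card) := by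
  obtain ⟨f1, f2, h1, h2, h3⟩ := dual_parity h.sq h.odd h.hs
    (fun p => PP i (LF s (sgF (s 0) (s 1) (∏ j, s j)) p))
    (fun p => QQc i (LF s (sgF (s 0) (s 1) (∏ j, s j)) p))
    (fun p => xcPP i (xcLF s _ p)) (fun p => xcQQ i (xcLF s _ p))
    (fun p => dd i (decide (p ∣ s (jj i))) (decide (p ∈ sgF (s 0) (s 1) (∏ j, s j)))) (by
      intro p hp
      obtain ⟨j, hj, hl⟩ := ex_cls h.sq hp
      have e : LF s (sgF (s 0) (s 1) (∏ j, s j)) p =
          LR j (decide (p ∈ sgF (s 0) (s 1) (∏ j, s j))) := by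
        funext v w x g
        exact propext (LF_iff h.sq (Nat.prime_of_mem_primeFactors hp) hj)
      simp only [e, hl]
      have := dl_LR (sg0 p (-1)) (decide (p ∈ sgF (s 0) (s 1) (∏ j, s j))) i j
      rwa [show decide (j = jj i) = decide (jj i = j) from by
        rw [decide_eq_decide]; exact eq_comm] at this)
  refine ⟨f1, f2, h1, h2, ?_⟩
  have h4 := even_of_sign ((sum_sign (sgF (s 0) (s 1) (∏ j, s j)) i).trans
    ((h.chi_all (jj i)).symm ▸ h.nsplit.symm))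
  obtain ⟨x, hx⟩ := h3
  obtain ⟨y, hy⟩ := h4
  exact ⟨x + y - ∑ p ∈ (∏ j, s j).primeFactors,
      (dd i (decide (p ∣ s (jj i))) (decide (p ∈ sgF (s 0) (s 1) (∏ j, s j))) + 1), by
    omega⟩

lemma HP.n17 (h : HP s) : ¬ 17 ∣ ∏ j, s j := fun h' => lt_irrefl _ (h.big 17 p17 h')

lemma HP.chi_tw (h : HP s) (j : Fin 3) (y : ℤ)
    (hy : ∀ p : ℕ, p.Prime → p ∣ s j → ¬ (p : ℤ) ∣ y)
    (hE : ∀ p : ℕ, p.Prime → p ∣ s j → (p ∈ sgF (s 0) (s 1) (∏ j, s j) ↔ J(y | p) = -1)) :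
    chi s (tw (∏ j, s j) (sgF (s 0) (s 1) (∏ j, s j))) j =
      J(17 | s j) * chi s (sgF (s 0) (s 1) (∏ j, s j)) j := by
  rw [chi_eq h.sq (sgF (s 0) (s 1) (∏ j, s j)) j y hy hE, ← jacobiSym.mul_left]
  have hne : ∀ p : ℕ, p ∣ s j → p ≠ 17 := by
    rintro p hd rfl
    exact h.n17 (hd.trans (dvd_P j))
  apply chi_eq h.sq
  · intro p hp hd hdv
    rcases (Nat.prime_iff_prime_int.1 hp).dvd_or_dvd hdv with h1 | h1
    · have h2 : p ∣ 17 := by exact_mod_cast h1
      exact hne p hd ((Nat.prime_dvd_prime_iff_eq hp p17).1 h2)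
    · exact hy p hp hd h1
  · intro p hp hd
    have hpf : p ∈ (∏ j, s j).primeFactors :=
      Nat.mem_primeFactors.2 ⟨hp, hd.trans (dvd_P j), h.sq.ne_zero⟩
    have htw : p ∈ tw (∏ j, s j) (sgF (s 0) (s 1) (∏ j, s j)) ↔
        ¬ (p ∈ sgF (s 0) (s 1) (∏ j, s j) ↔ jacobiSym 17 p = -1) := by
      unfold tw
      rw [mem_filter]
      exact and_iff_right hpf
    rw [htw, hE p hp hd, Pool.Agent.Y535.RZ.jac_tw hp (hne p hd) (hy p hp hd)]

lemma HP.j17 (h : HP s) (j : Fin 3) : J(17 | s j) = J((s j : ℤ) | 17) := by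
  have := jacobiSym.quadratic_reciprocity_one_mod_four (a := 17) (b := s j) (by norm_num) (h.oj j)
  exact this

lemma HP.twc (h : HP s) (i : Fin 3) :
    chi s (tw (∏ j, s j) (sgF (s 0) (s 1) (∏ j, s j))) (jj i) =
      (if i = 0 then -1 else 1) * chi s (sgF (s 0) (s 1) (∏ j, s j)) 0 := by
  have n0 := h.n0
  have n1 := h.n1
  have n2 : (s 2 : ℤ) % 17 = 7 := by
    have := h.rel
    omega
  have k0 := h.chi_tw 0 (-(s 1 : ℤ)) (fun p hp hd => by
    rw [dvd_neg]; exact nd_int h.sq (by decide) p hp hd)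
    (fun p hp hd => (h.memE hp (hd.trans (dvd_P 0))).1 hd)
  have k1 := h.chi_tw 1 (-(s 0 : ℤ)) (fun p hp hd => by
    rw [dvd_neg]; exact nd_int h.sq (by decide) p hp hd)
    (fun p hp hd => (h.memE hp (hd.trans (dvd_P 1))).2.1 hd)
  have k2 := h.chi_tw 2 (s 0 : ℤ) (fun p hp hd => nd_int h.sq (by decide) p hp hd)
    (fun p hp hd => (h.memE hp (hd.trans (dvd_P 2))).2.2 hd)
  rw [h.j17] at k0 k1 k2
  have e0 : J((s 0 : ℤ) | 17) = 1 := by
    rw [jacobiSym.mod_left' (b := 17) (a₂ := 1) (by push_cast; omega)]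
    norm_num
  have e1 : J((s 1 : ℤ) | 17) = 1 := by
    rw [jacobiSym.mod_left' (b := 17) (a₂ := 15) (by push_cast; omega)]
    norm_num
  have e2 : J((s 2 : ℤ) | 17) = -1 := by
    rw [jacobiSym.mod_left' (b := 17) (a₂ := 7) (by push_cast; omega)]
    norm_num
  rw [e0] at k0
  rw [e1, h.chi_all 1] at k1
  rw [e2, h.chi_all 2] at k2
  rcases fin3 i with rfl | rfl | rfl
  · exact k2
  · exact k1
  · exact k0

/-- **The parity for the twist by `17` of the curve of the triple.** -/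
theorem HP.six17 (h : HP s) (i : Fin 3) : ∃ f1 f2 : ℕ,
    (GB (17 * ∏ j, s j) (fun p => PP i (L17 s (sgF (s 0) (s 1) (∏ j, s j)) p))).ncard = 2 ^ f1 ∧
    (GA (17 * ∏ j, s j) (fun p => QQc i (L17 s (sgF (s 0) (s 1) (∏ j, s j)) p))).ncard = 2 ^ f2 ∧
    Even (f1 + f2 + (((∏ j, s j).primeFactors \ sgF (s 0) (s 1) (∏ j, s j)).card + 1)) := by
  have hld := h.ld17
  have hS : HS (17 * ∏ j, s j) := by
    intro σ hσ
    obtain ⟨p, hp, hd, hJ⟩ := h.hs σ hσ
    exact ⟨p, hp, hd.mul_left _, hJ⟩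
  have hNc : (17 * ∏ j, s j).primeFactors = insert 17 (∏ j, s j).primeFactors :=
    pf17 h.sq.ne_zero
  have h17 : 17 ∉ (∏ j, s j).primeFactors := fun h' => h.n17 (Nat.dvd_of_mem_primeFactors h')
  obtain ⟨k, hk⟩ : ∃ k : ℕ → ℕ, k = fun p => if p = 17 then (if i = 0 then 1 else 0) else
    dd i (decide (p ∣ s (jj i))) (decide (p ∈ tw (∏ j, s j) (sgF (s 0) (s 1) (∏ j, s j)))) :=
      ⟨_, rfl⟩
  obtain ⟨f1, f2, h1, h2, h3⟩ := dual_parity hld.sq hld.odd hS
    (fun p => PP i (L17 s (sgF (s 0) (s 1) (∏ j, s j)) p))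
    (fun p => QQc i (L17 s (sgF (s 0) (s 1) (∏ j, s j)) p))
    (fun p => xcPP i (xcL17 s _ p)) (fun p => xcQQ i (xcL17 s _ p)) k (by
      intro p hp
      rw [hNc, mem_insert] at hp
      by_cases hp17 : p = 17
      · subst hp17
        rw [hk]
        simp only [if_true, L17_17]
        have e : sg0 17 (-1) = false := by
          unfold sg0
          rw [decide_eq_false_iff_not]
          norm_num
        rw [e]
        exact dl_L1 i
      · have hp' := hp.resolve_left hp17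
        obtain ⟨j, hj, hl⟩ := ex_cls h.sq hp'
        have e : L17 s (sgF (s 0) (s 1) (∏ j, s j)) p =
            LR j (decide (p ∈ tw (∏ j, s j) (sgF (s 0) (s 1) (∏ j, s j)))) := by
          rw [L17_ne s _ hp17]
          funext v w x g
          exact propext (LF_iff h.sq (Nat.prime_of_mem_primeFactors hp') hj)
        rw [hk]
        simp only [if_neg hp17, e, hl]
        have := dl_LR (sg0 p (-1)) (decide (p ∈ tw (∏ j, s j) (sgF (s 0) (s 1) (∏ j, s j)))) i j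
        rwa [show decide (j = jj i) = decide (jj i = j) from by
          rw [decide_eq_decide]; exact eq_comm] at this)
  refine ⟨f1, f2, h1, h2, ?_⟩
  have hsum : ∑ p ∈ (17 * ∏ j, s j).primeFactors, (k p + 1) = ((if i = 0 then 1 else 0) + 1) +
      ∑ p ∈ (∏ j, s j).primeFactors, (dd i (decide (p ∣ s (jj i)))
        (decide (p ∈ tw (∏ j, s j) (sgF (s 0) (s 1) (∏ j, s j)))) + 1) := by
    rw [hNc, sum_insert h17, hk]
    simp only [if_true]
    congr 1
    apply sum_congr rfl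
    intro p hp
    rw [if_neg (by rintro rfl; exact h17 hp)]
  have hsign : (-1 : ℤ) ^ (∑ p ∈ (17 * ∏ j, s j).primeFactors, (k p + 1)) =
      (-1) ^ (((∏ j, s j).primeFactors \ sgF (s 0) (s 1) (∏ j, s j)).card + 1) := by
    have e := pow_succ (-1 : ℤ) ((∏ j, s j).primeFactors \ sgF (s 0) (s 1) (∏ j, s j)).card
    rw [hsum, pow_add, sum_sign, h.twc, e, h.nsplit]
    rcases fin3 i with rfl | rfl | rfl
    · simp
    · simp
    · simp
  have h4 := even_of_sign hsign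
  obtain ⟨x, hx⟩ := h3
  obtain ⟨y, hy⟩ := h4
  exact ⟨x + y - ∑ p ∈ (17 * ∏ j, s j).primeFactors, (k p + 1), by omega⟩

end

end Pool.Agent.Q284.ISO
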